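import Pool.Agent.H36.Perc.Survive

open MeasureTheory ProbabilityTheory Set Filter
open scoped ENNReal NNReal Topology

namespace Pool.Agent.H36.Perc

variable {A : Type*} [Fintype A]

/-- The fixed point equation of the offspring generating function has at most two solutions
`u ≤ v ≤ 1`: if `u` solves it and `v ≤ g(v)` then `v = u` or `v = 1`. -/
theorem fixed_points {M : ℕ} (hM : 2 ≤ M) {t u v : ℝ} (ht : 0 < t) (ht1 : t ≤ 1)
    (hu0 : 0 ≤ u) (huv : u ≤ v) (hv1 : v ≤ 1) (hu : u = (t * u + (1 - t)) ^ M)
    (hv : v ≤ (t * v + (1 - t)) ^ M) : v = u ∨ v = 1 := by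
  by_contra hcon
  push Not at hcon
  obtain ⟨h1, h2⟩ := hcon
  have huv' : u < v := lt_of_le_of_ne huv (Ne.symm h1)
  have hv1' : v < 1 := lt_of_le_of_ne hv1 h2
  have hconv := strictConvexOn_pow hM
  -- `v` is a convex combination of `u` and `1`
  set a : ℝ := (1 - v) / (1 - u) with ha
  set b : ℝ := (v - u) / (1 - u) with hb
  have h1u : 0 < 1 - u := by linarith
  have ha0 : 0 < a := div_pos (by linarith) h1u
  have hb0 : 0 < b := div_pos (by linarith) h1u
  have hab : a + b = 1 := by rw [ha, hb]; field_simp; ring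
  have hvc : v = a * u + b * 1 := by rw [ha, hb]; field_simp; ring
  have hx : t * u + (1 - t) ∈ Ici (0:ℝ) := by
    have : 0 ≤ t * u := by positivity
    show (0:ℝ) ≤ _
    linarith
  have hy : (1:ℝ) ∈ Ici (0:ℝ) := by show (0:ℝ) ≤ 1; norm_num
  have hne : t * u + (1 - t) ≠ 1 := by
    intro h
    have : t * (1 - u) = 0 := by linarith
    rcases mul_eq_zero.1 this with h | h <;> linarith
  have key := hconv.2 hx hy hne ha0 hb0 hab
  simp only [smul_eq_mul, one_pow, mul_one] at key
  have e : a * (t * u + (1 - t)) + b = t * v + (1 - t) := by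
    rw [hvc]
    have : b = 1 - a := by linarith
    rw [this]; ring
  rw [e, ← hu] at key
  have : a * u + b = v := by rw [hvc]; ring
  linarith

/-- Zero-one law: an event containing extinction, inherited by the subtrees of kept children,
is either almost surely equal to extinction or has full probability. -/
theorem zero_one (ν : Measure Bool) [IsProbabilityMeasure ν] (hA : 2 ≤ Fintype.card A)
    (hν : 0 < ν {true}) {E : Set (List A → A → Bool)} (hE : MeasurableSet E)
    (hext : {x | ¬ surv x} ⊆ E)
    (hinh : ∀ x ∈ E, ∀ a, x [] a = true → sub x [a] ∈ E) (hE1 : perc A ν E < 1) :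
    ∀ᵐ x ∂perc A ν, surv x → x ∉ E := by
  have hx : MeasurableSet {x : List A → A → Bool | ¬ surv x} := measurableSet_surv.compl
  have h1 : perc A ν {x | ¬ surv x} =
      (ν {true} * perc A ν {x | ¬ surv x} + ν {false}) ^ Fintype.card A := by
    rw [← measure_children ν hx]
    congr 1
    ext x
    simp only [mem_ofPred_eq]
    rw [surv_iff]
    push Not
    rfl
  have h2 : perc A ν E ≤ (ν {true} * perc A ν E + ν {false}) ^ Fintype.card A := by
    conv_lhs => skip
    rw [← measure_children ν hE]
    exact measure_mono fun x hx a ha => hinh x hx a ha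
  have h3 : perc A ν {x | ¬ surv x} ≤ perc A ν E := measure_mono hext
  -- pass to real numbers
  set u : ℝ := (perc A ν {x | ¬ surv x}).toReal with hu
  set v : ℝ := (perc A ν E).toReal with hv
  set t : ℝ := (ν {true}).toReal with ht
  have hfalse : (ν {false}).toReal = 1 - t := by
    have : ν {false} = 1 - ν {true} := by
      rw [← prob_compl_eq_one_sub (measurableSet_singleton _)]
      congr 1
      ext b; cases b <;> simp
    rw [this, ENNReal.toReal_sub_of_le prob_le_one ENNReal.one_ne_top]
    simp [ht]
  have ht0 : 0 < t := ENNReal.toReal_pos hν.ne' (measure_ne_top _ _)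
  have ht1 : t ≤ 1 := by
    have := ENNReal.toReal_mono ENNReal.one_ne_top (prob_le_one (μ := ν) (s := {true}))
    simpa [ht] using this
  have hreal : ∀ q : ℝ≥0∞, q ≠ ∞ → ((ν {true} * q + ν {false}) ^ Fintype.card A).toReal =
      (t * q.toReal + (1 - t)) ^ Fintype.card A := by
    intro q hq
    rw [ENNReal.toReal_pow, ENNReal.toReal_add (ENNReal.mul_ne_top (measure_ne_top _ _) hq)
      (measure_ne_top _ _), ENNReal.toReal_mul, hfalse]
  have hu' : u = (t * u + (1 - t)) ^ Fintype.card A := by
    conv_lhs => rw [hu, h1]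
    exact hreal _ (measure_ne_top _ _)
  have hv' : v ≤ (t * v + (1 - t)) ^ Fintype.card A := by
    rw [← hreal _ (measure_ne_top _ _)]
    apply ENNReal.toReal_mono _ h2
    apply ENNReal.pow_ne_top
    exact ENNReal.add_ne_top.2 ⟨ENNReal.mul_ne_top (measure_ne_top _ _) (measure_ne_top _ _),
      measure_ne_top _ _⟩
  have huv : u ≤ v := ENNReal.toReal_mono (measure_ne_top _ _) h3
  have hv1 : v < 1 := by
    have := (ENNReal.toReal_lt_toReal (measure_ne_top _ _) ENNReal.one_ne_top).2 hE1
    simpa using this
  have hvu : v = u := by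
    rcases fixed_points hA ht0 ht1 ENNReal.toReal_nonneg huv hv1.le hu' hv' with h | h
    · exact h
    · exact absurd h hv1.ne
  have heq : perc A ν E = perc A ν {x | ¬ surv x} :=
    (ENNReal.toReal_eq_toReal_iff' (measure_ne_top _ _) (measure_ne_top _ _)).1 hvu
  have hdiff : perc A ν (E \ {x | ¬ surv x}) = 0 := by
    rw [measure_sdiff hext hx.nullMeasurableSet (measure_ne_top _ _), heq, tsub_self]
  rw [ae_iff]
  refine measure_mono_null ?_ hdiff
  intro x hx
  simp only [mem_ofPred_eq] at hx
  push Not at hx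
  exact ⟨hx.2, fun h => h hx.1⟩

end Pool.Agent.H36.Perc
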