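import Mathlib

open Set Filter Metric
open scoped ENNReal NNReal Topology

namespace Pool.Agent.H36.Perc

/-- The upper box-counting dimension of a metric space: the upper limit, as `r` tends to `0`
from above, of `log N(r) / log (1 / r)`, where `N(r)` is the least number of closed balls of
radius `r` covering the space. -/
noncomputable def upperBoxDim (X : Type*) [MetricSpace X] : EReal :=
  limsup (fun r : ℝ => ENNReal.log ((coveringNumber r.toNNReal (univ : Set X) : ℕ∞) : ℝ≥0∞) /
    ((Real.log (1 / r) : ℝ) : EReal)) (𝓝[>] 0)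

/-- A homeomorphism of metric spaces is quasisymmetric if there is a homeomorphism `η` of
`[0, ∞)` such that `d(x,a) ≤ t d(x,b)` implies `d(f x, f a) ≤ η(t) d(f x, f b)`. -/
def IsQuasisymmetric {X Y : Type*} [MetricSpace X] [MetricSpace Y] (f : X ≃ₜ Y) : Prop :=
  ∃ η : ℝ≥0 ≃ₜ ℝ≥0, ∀ (x a b : X) (t : ℝ≥0), 0 < t → dist x a ≤ t * dist x b →
    dist (f x) (f a) ≤ η t * dist (f x) (f b)

/-- The conformal upper box dimension: the infimum of the upper box dimensions of all metric
spaces quasisymmetrically equivalent to `X`. -/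
noncomputable def conformalUpperBoxDim (X : Type) [MetricSpace X] : EReal :=
  sInf {D | ∃ (Y : Type) (_ : MetricSpace Y) (f : X ≃ₜ Y), IsQuasisymmetric f ∧
    D = upperBoxDim Y}

theorem tendsto_inv_log : Tendsto (fun r : ℝ => (Real.log (1 / r))⁻¹) (𝓝[>] 0) (𝓝 0) := by
  apply Tendsto.inv_tendsto_atTop
  apply Real.tendsto_log_atTop.comp
  have h := tendsto_inv_nhdsGT_zero (𝕜 := ℝ)
  have e : (fun r : ℝ => 1 / r) = fun r => r⁻¹ := by funext r; exact one_div r
  show Tendsto (fun r : ℝ => 1 / r) (𝓝[>] 0) atTop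
  rw [e]
  exact h

theorem tendsto_aux (K q : ℝ) : Tendsto (fun r : ℝ =>
    (((Real.log K * (Real.log (1 / r))⁻¹ + q : ℝ)) : EReal)) (𝓝[>] 0) (𝓝 (q : EReal)) := by
  apply continuous_coe_real_ereal.continuousAt.tendsto.comp
  have := (tendsto_inv_log.const_mul (Real.log K)).add_const q
  simpa using this

theorem log_aux {K q r : ℝ} (hK : 0 < K) (hr0 : 0 < r) (hr1 : r < 1) :
    ENNReal.log (ENNReal.ofReal (K * (1 / r) ^ q)) / ((Real.log (1 / r) : ℝ) : EReal) =
      (((Real.log K * (Real.log (1 / r))⁻¹ + q : ℝ)) : EReal) := by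
  have h1 : 0 < 1 / r := by positivity
  have h2 : 0 < Real.log (1 / r) := Real.log_pos (by rw [lt_div_iff₀ hr0]; linarith)
  rw [ENNReal.log_ofReal_of_pos (by positivity), ← EReal.coe_div]
  congr 1
  rw [Real.log_mul hK.ne' (by positivity), Real.log_rpow h1]
  field_simp

theorem upperBoxDim_le {X : Type*} [MetricSpace X] {K q s : ℝ} (hK : 0 < K) (hs : 0 < s)
    (h : ∀ r : ℝ, 0 < r → r < 1 →
      ((coveringNumber (s * r).toNNReal (univ : Set X) : ℕ∞) : ℝ≥0∞) ≤
        ENNReal.ofReal (K * (1 / r) ^ q)) : upperBoxDim X ≤ (q : EReal) := by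
  rw [← (tendsto_aux (K * s ^ q) q).limsup_eq]
  refine limsup_le_limsup ?_ (by isBoundedDefault) (by isBoundedDefault)
  have h1 : ∀ᶠ r : ℝ in 𝓝[>] 0, 0 < r ∧ r < min 1 s := by
    have := Ioo_mem_nhdsGT (lt_min one_pos hs : (0:ℝ) < min 1 s)
    filter_upwards [this] with r hr
    exact ⟨hr.1, hr.2⟩
  filter_upwards [h1] with r hr
  obtain ⟨hr0, hr1⟩ := hr
  have hr1' : r < 1 := hr1.trans_le (min_le_left _ _)
  have hrs : r < s := hr1.trans_le (min_le_right _ _)
  rw [← log_aux (by positivity) hr0 hr1']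
  apply EReal.div_le_div_right_of_nonneg
  · have : 0 < Real.log (1 / r) := Real.log_pos (by rw [lt_div_iff₀ hr0]; linarith)
    exact_mod_cast this.le
  · apply ENNReal.log_monotone
    have h2 := h (r / s) (by positivity) (by rw [div_lt_one hs]; exact hrs)
    have e1 : s * (r / s) = r := by field_simp
    have e2 : K * (1 / (r / s)) ^ q = K * s ^ q * (1 / r) ^ q := by
      have : 1 / (r / s) = s * (1 / r) := by field_simp
      rw [this, Real.mul_rpow hs.le (by positivity)]
      ring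
    rwa [e1, e2] at h2

theorem le_upperBoxDim {X : Type*} [MetricSpace X] {K q : ℝ} (hK : 0 < K)
    (h : ∃ᶠ r : ℝ in 𝓝[>] 0, ENNReal.ofReal (K * (1 / r) ^ q) ≤
      ((coveringNumber r.toNNReal (univ : Set X) : ℕ∞) : ℝ≥0∞)) :
    (q : EReal) ≤ upperBoxDim X := by
  apply le_of_forall_lt
  intro b hb
  obtain ⟨b', hb1, hb2⟩ := exists_between hb
  refine lt_of_lt_of_le hb1 ?_
  apply le_limsup_of_frequently_le
  · have h1 : ∀ᶠ r : ℝ in 𝓝[>] 0, 0 < r ∧ r < 1 := by
      have := Ioo_mem_nhdsGT (one_pos : (0:ℝ) < 1)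
      filter_upwards [this] with r hr
      exact ⟨hr.1, hr.2⟩
    have h2 := (tendsto_aux K q).eventually (lt_mem_nhds hb2)
    refine (h.and_eventually (h1.and h2)).mono ?_
    rintro r ⟨hr, ⟨hr0, hr1⟩, hr2⟩
    refine hr2.le.trans ?_
    rw [← log_aux hK hr0 hr1]
    apply EReal.div_le_div_right_of_nonneg
    · have : 0 < Real.log (1 / r) := Real.log_pos (by rw [lt_div_iff₀ hr0]; linarith)
      exact_mod_cast this.le
    · exact ENNReal.log_monotone hr
  · exact isBoundedUnder_of_eventually_le (a := ⊤) (Eventually.of_forall fun _ => le_top)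

end Pool.Agent.H36.Perc
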