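import Pool.Agent.H36.Perc.Cover
import Pool.Agent.H36.Perc.Defs

open MeasureTheory ProbabilityTheory Set Filter Metric
open scoped ENNReal NNReal Topology

namespace Pool.Agent.H36.Perc

variable {d n : ℕ}

/-- A kept word with surviving subtree has a point of the limit set in its cube. -/
theorem point_in_cube (hn : 0 < n) {x : List (Fin d → Fin n) → (Fin d → Fin n) → Bool}
    {w : List (Fin d → Fin n)} (hk : kept x w) (hs : surv (sub x w)) :
    ∃ y ∈ lim x, y ∈ cube w := by
  have hn' : (0 : ℝ) < n := by exact_mod_cast hn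
  obtain ⟨y0, hy0⟩ := lim_nonempty hn hs
  have hmem : ∀ v, y0 ∈ cube v →
      (WithLp.toLp 2 (fun i => corner w i + y0 i / (n : ℝ) ^ w.length) :
        EuclideanSpace ℝ (Fin d)) ∈ cube (w ++ v) := by
    intro v hv i
    obtain ⟨h1, h2⟩ := hv i
    show corner (w ++ v) i ≤ corner w i + y0 i / (n : ℝ) ^ w.length ∧
      corner w i + y0 i / (n : ℝ) ^ w.length ≤
        corner (w ++ v) i + 1 / (n : ℝ) ^ (w ++ v).length
    rw [corner_append hn, List.length_append, pow_add]
    have hp : (0:ℝ) < (n : ℝ) ^ w.length := by positivity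
    constructor
    · have : corner v i / (n : ℝ) ^ w.length ≤ y0 i / (n : ℝ) ^ w.length := by gcongr
      linarith
    · have h3 : y0 i / (n : ℝ) ^ w.length ≤
          (corner v i + 1 / (n : ℝ) ^ v.length) / (n : ℝ) ^ w.length := by gcongr
      have h4 : (corner v i + 1 / (n : ℝ) ^ v.length) / (n : ℝ) ^ w.length =
          corner v i / (n : ℝ) ^ w.length + 1 / ((n : ℝ) ^ w.length * (n : ℝ) ^ v.length) := by
        field_simp
      linarith
  have hw : (WithLp.toLp 2 (fun i => corner w i + y0 i / (n : ℝ) ^ w.length) :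
        EuclideanSpace ℝ (Fin d)) ∈ cube w := by
    obtain ⟨v, _, _, hv⟩ := hy0 0
    exact cube_append_subset hn _ _ (hmem v hv)
  refine ⟨_, ?_, hw⟩
  intro k
  rcases le_or_gt k w.length with hkw | hkw
  · refine ⟨w.take k, by simp [hkw], kept_take _ hk, ?_⟩
    have e := List.take_append_drop k w
    rw [← e] at hw
    have := cube_append_subset hn _ _ hw
    rwa [e] at this
  · obtain ⟨v, hv1, hv2, hv3⟩ := hy0 (k - w.length)
    exact ⟨w ++ v, by rw [List.length_append, hv1]; omega, (kept_append _ _ _).2 ⟨hk, hv2⟩,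
      hmem v hv3⟩

open Classical in
theorem Z'_eq {A : Type*} [Fintype A] (k : ℕ) (x : List A → A → Bool) :
    Z' k x = (((words A k).filter (fun w => kept x w ∧ surv (sub x w))).card : ℝ≥0∞) := by
  unfold Z'
  rw [Finset.card_eq_sum_ones, Nat.cast_sum, Finset.sum_filter]
  apply Finset.sum_congr rfl
  intro w _
  by_cases h : kept x w ∧ surv (sub x w)
  · rw [if_pos h, indicator_of_mem (by exact h)]; simp
  · rw [if_neg h, indicator_of_notMem (by exact h)]

/-- The covering number of the limit set is at least the number of surviving cubes, up to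
a constant. -/
theorem cover_lower (hn : 0 < n) (x : List (Fin d → Fin n) → (Fin d → Fin n) → Bool) (k : ℕ) :
    Z' k x ≤ 4 ^ d * ((coveringNumber (1 / (n : ℝ) ^ k).toNNReal
      (univ : Set (lim x)) : ℕ∞) : ℝ≥0∞) := by
  classical
  have hn' : (0 : ℝ) < n := by exact_mod_cast hn
  have hp : (0:ℝ) < (n : ℝ) ^ k := by positivity
  by_cases htop : coveringNumber (1 / (n : ℝ) ^ k).toNNReal (univ : Set (lim x)) = ⊤
  · rw [htop]
    have : (4 : ℝ≥0∞) ^ d * ((⊤ : ℕ∞) : ℝ≥0∞) = ⊤ := by
      rw [ENat.toENNReal_top, ENNReal.mul_top]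
      positivity
    rw [this]
    exact le_top
  · obtain ⟨C, _, hfin, hcov, hcard⟩ := exists_set_encard_eq_coveringNumber htop
    rw [isCover_iff_subset_iUnion_closedBall] at hcov
    set S := (words (Fin d → Fin n) k).filter (fun w => kept x w ∧ surv (sub x w)) with hS
    have hpt : ∀ w ∈ S, ∃ p ∈ C, ∀ i, (n : ℝ) ^ k * (p : EuclideanSpace ℝ (Fin d)) i - 2 ≤ idx w i ∧
        (idx w i : ℝ) ≤ (n : ℝ) ^ k * (p : EuclideanSpace ℝ (Fin d)) i + 1 := by
      intro w hw
      rw [hS, Finset.mem_filter, mem_words] at hw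
      obtain ⟨hwl, hk, hs⟩ := hw
      obtain ⟨y, hy, hyw⟩ := point_in_cube hn hk hs
      have := hcov (mem_univ (⟨y, hy⟩ : lim x))
      rw [mem_iUnion₂] at this
      obtain ⟨p, hpC, hyp⟩ := this
      refine ⟨p, hpC, fun i => ?_⟩
      rw [mem_closedBall, Real.coe_toNNReal _ (by positivity), Subtype.dist_eq, dist_eq_norm] at hyp
      have h1 : |y i - (p : EuclideanSpace ℝ (Fin d)) i| ≤ 1 / (n : ℝ) ^ k := by
        have := PiLp.norm_apply_le (y - (p : EuclideanSpace ℝ (Fin d))) i
        rw [PiLp.sub_apply, Real.norm_eq_abs] at this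
        exact this.trans hyp
      obtain ⟨h2, h3⟩ := hyw i
      rw [corner_eq hn, hwl] at h2 h3
      rw [abs_le] at h1
      obtain ⟨h4, h5⟩ := h1
      rw [← add_div] at h3
      rw [div_le_iff₀ hp] at h2
      rw [le_div_iff₀ hp] at h3
      have h6 : (y i - (p : EuclideanSpace ℝ (Fin d)) i) * (n : ℝ) ^ k ≤ 1 := by
        have := mul_le_mul_of_nonneg_right h5 hp.le
        rwa [one_div, inv_mul_cancel₀ hp.ne'] at this
      have h7 : -1 ≤ (y i - (p : EuclideanSpace ℝ (Fin d)) i) * (n : ℝ) ^ k := by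
        have := mul_le_mul_of_nonneg_right h4 hp.le
        rwa [neg_mul, one_div, inv_mul_cancel₀ hp.ne'] at this
      constructor <;> nlinarith
    rcases isEmpty_or_nonempty (lim x) with hemp | hne
    · have hS0 : S = ∅ := Finset.eq_empty_of_forall_notMem fun w hw => by
        obtain ⟨p, _⟩ := hpt w hw
        exact hemp.false p
      rw [Z'_eq, ← hS, hS0]
      simp
    choose! p hpC hpi using hpt
    set φ : List (Fin d → Fin n) → (lim x) × (Fin d → Fin 4) := fun w =>
      (p w, fun i => ⟨idx w i % 4, Nat.mod_lt _ (by norm_num)⟩) with hφ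
    have hinj : Set.InjOn φ S := by
      intro w hw w' hw' heq
      rw [hφ, Prod.mk.injEq] at heq
      obtain ⟨h1, h2⟩ := heq
      have hw1 := hw
      have hw1' := hw'
      rw [Finset.mem_coe] at hw1 hw1'
      have hwl : w.length = k := by
        rw [hS, Finset.mem_filter, mem_words] at hw1; exact hw1.1
      have hwl' : w'.length = k := by
        rw [hS, Finset.mem_filter, mem_words] at hw1'; exact hw1'.1
      apply idx_inj (hwl.trans hwl'.symm)
      intro i
      have h3 := hpi w hw i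
      have h4 := hpi w' hw' i
      rw [← h1] at h4
      have h5 : idx w i % 4 = idx w' i % 4 := by
        have := congrFun h2 i
        simpa [Fin.ext_iff] using this
      have h6 : (idx w i : ℝ) ≤ idx w' i + 3 := by linarith [h3.2, h4.1]
      have h7 : (idx w' i : ℝ) ≤ idx w i + 3 := by linarith [h4.2, h3.1]
      have h8 : idx w i ≤ idx w' i + 3 := by exact_mod_cast h6
      have h9 : idx w' i ≤ idx w i + 3 := by exact_mod_cast h7
      omega
    have hle : S.card ≤ (hfin.toFinset ×ˢ (Finset.univ : Finset (Fin d → Fin 4))).card := by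
      apply Finset.card_le_card_of_injOn φ _ hinj
      intro w hw
      rw [Finset.mem_coe, Finset.mem_product]
      refine ⟨?_, Finset.mem_univ _⟩
      rw [Set.Finite.mem_toFinset]
      exact hpC w hw
    rw [Finset.card_product, Finset.card_univ, Fintype.card_fun, Fintype.card_fin,
      Fintype.card_fin] at hle
    rw [Z'_eq, ← hcard]
    have he : ((C.encard : ℕ∞) : ℝ≥0∞) = (hfin.toFinset.card : ℝ≥0∞) := by
      rw [hfin.encard_eq_coe_toFinset_card]; simp
    rw [he, mul_comm]
    exact_mod_cast hle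

/-- The lower bound for the upper box dimension of the limit set. -/
theorem le_dim (hn : 2 ≤ n) {s : ℝ} {x : List (Fin d → Fin n) → (Fin d → Fin n) → Bool}
    (h : ∃ j : ℕ, ∃ᶠ k in atTop, ENNReal.ofReal ((n : ℝ) ^ s) ^ k ≤ (j + 1 : ℝ≥0∞) * Z' k x) :
    (s : EReal) ≤ upperBoxDim (lim x) := by
  obtain ⟨j, hj⟩ := h
  have hn0 : 0 < n := by omega
  have hn' : (0 : ℝ) < n := by exact_mod_cast hn0
  have hn1 : (1 : ℝ) < n := by exact_mod_cast (show 1 < n by omega)
  set K : ℝ := 1 / ((j + 1) * 4 ^ d) with hK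
  have hKpos : 0 < K := by positivity
  apply le_upperBoxDim hKpos
  have htend : Tendsto (fun k : ℕ => 1 / (n : ℝ) ^ k) atTop (𝓝[>] 0) := by
    rw [tendsto_nhdsWithin_iff]
    constructor
    · have := tendsto_pow_atTop_nhds_zero_of_lt_one (r := 1 / (n : ℝ)) (by positivity)
        (by rw [div_lt_one hn']; exact hn1)
      refine this.congr fun k => ?_
      rw [one_div, inv_pow, one_div]
    · exact Eventually.of_forall fun k => by
        show (0:ℝ) < 1 / (n : ℝ) ^ k
        positivity
  apply htend.frequently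
  refine hj.mono fun k hk => ?_
  have h1 := hk.trans (mul_le_mul_right (cover_lower hn0 x k) _)
  have h2 : (1 / (1 / (n : ℝ) ^ k)) ^ s = ((n : ℝ) ^ s) ^ k := by
    rw [one_div_one_div, Real.rpow_pow_comm hn'.le]
  rw [h2, ENNReal.ofReal_mul hKpos.le, ENNReal.ofReal_pow (by positivity)]
  calc ENNReal.ofReal K * ENNReal.ofReal ((n : ℝ) ^ s) ^ k
      ≤ ENNReal.ofReal K * ((j + 1 : ℝ≥0∞) * (4 ^ d * ((coveringNumber (1 / (n : ℝ) ^ k).toNNReal
      (univ : Set (lim x)) : ℕ∞) : ℝ≥0∞))) := mul_le_mul_right h1 _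
    _ = (ENNReal.ofReal K * ((j + 1 : ℝ≥0∞) * 4 ^ d)) *
        ((coveringNumber (1 / (n : ℝ) ^ k).toNNReal
      (univ : Set (lim x)) : ℕ∞) : ℝ≥0∞) := by ring
    _ = _ := by
      have h3 : ((j + 1 : ℝ≥0∞) * 4 ^ d) = ENNReal.ofReal ((j + 1) * 4 ^ d) := by
        rw [ENNReal.ofReal_mul (by positivity), ENNReal.ofReal_pow (by norm_num),
          ENNReal.ofReal_add (by positivity) (by norm_num)]
        simp
      have h4 : K * ((j + 1) * 4 ^ d) = 1 := by
        rw [hK]; field_simp
      rw [h3, ← ENNReal.ofReal_mul hKpos.le, h4, ENNReal.ofReal_one, one_mul]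

end Pool.Agent.H36.Perc
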