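import Pool.Agent.H36.Perc.Cube

open MeasureTheory ProbabilityTheory Set Filter Metric
open scoped ENNReal NNReal Topology

namespace Pool.Agent.H36.Perc

section words

variable {A : Type*}

theorem exact_unique {x : List A → A → Bool} {c v : List A} (hlen : v.length = c.length)
    (hx : exact x c) (hk : kept x v) : v = c := by
  induction c generalizing x v with
  | nil => exact List.length_eq_zero_iff.1 hlen
  | cons a c ih =>
    cases v with
    | nil => simp at hlen
    | cons b v =>
      obtain ⟨h1, h2⟩ := hx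
      obtain ⟨h3, h4⟩ := hk
      have hba : b = a := (h1 b).1 h3
      subst hba
      rw [List.length_cons, List.length_cons, Nat.add_right_cancel_iff] at hlen
      rw [ih hlen h2 h4]

theorem kept_take {x : List A → A → Bool} {w : List A} (k : ℕ) (h : kept x w) :
    kept x (w.take k) := by
  rw [← List.take_append_drop k w, kept_append] at h
  exact h.1

/-- The coarse letter number `j` of `u` is a central cell. -/
def cen (c : List A) (a0 : ℕ) (x : List A → A → Bool) (u : List A) (j : ℕ) : Prop :=
  (u.drop (a0 * j)).take a0 = c ∧ exact (sub x (u.take (a0 * j))) c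

open Classical in
/-- The number of central cells among the first `i` coarse letters of `u`. -/
noncomputable def kap (c : List A) (a0 : ℕ) (x : List A → A → Bool) (i : ℕ) (u : List A) : ℕ :=
  ((Finset.range i).filter (fun j => cen c a0 x u j)).card

theorem cen_zero {c b v : List A} {a0 : ℕ} {x : List A → A → Bool} (hb : b.length = a0) :
    cen c a0 x (b ++ v) 0 ↔ b = c ∧ exact x c := by
  unfold cen
  rw [mul_zero, List.drop_zero, List.take_zero, sub_nil, ← hb, List.take_left']
  rfl

theorem cen_succ {c b v : List A} {a0 : ℕ} {x : List A → A → Bool} (hb : b.length = a0) (j : ℕ) :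
    cen c a0 x (b ++ v) (j + 1) ↔ cen c a0 (sub x b) v j := by
  unfold cen
  have e : a0 * (j + 1) = b.length + a0 * j := by rw [hb]; ring
  rw [e, List.drop_append, List.take_length_add_append, sub_append]
  have e1 : b.length + a0 * j - b.length = a0 * j := by omega
  have e2 : b.drop (b.length + a0 * j) = [] := List.drop_eq_nil_of_le (by omega)
  rw [e1, e2, List.nil_append]

open Classical in
theorem kap_succ_append {c b v : List A} {a0 : ℕ} {x : List A → A → Bool} (hb : b.length = a0)
    (i : ℕ) : kap c a0 x (i + 1) (b ++ v) =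
      (if b = c ∧ exact x c then 1 else 0) + kap c a0 (sub x b) i v := by
  unfold kap
  rw [Finset.card_filter, Finset.card_filter, Finset.sum_range_succ', add_comm]
  congr 1
  · simp only [cen_zero hb]
  · apply Finset.sum_congr rfl
    intro j _
    simp only [cen_succ hb]

open Classical in
theorem kap_succ (c : List A) (a0 : ℕ) (x : List A → A → Bool) (i : ℕ) (u : List A) :
    kap c a0 x (i + 1) u = kap c a0 x i u + if cen c a0 x u i then 1 else 0 := by
  unfold kap
  rw [Finset.range_add_one, Finset.filter_insert]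
  split_ifs with h
  · rw [Finset.card_insert_of_notMem (by simp)]
  · rfl

theorem cen_take {c w : List A} {a0 : ℕ} {x : List A → A → Bool} {j m : ℕ}
    (hm : a0 * (j + 1) ≤ m) : cen c a0 x (w.take m) j ↔ cen c a0 x w j := by
  unfold cen
  have e1 : (w.take m).take (a0 * j) = w.take (a0 * j) := by
    rw [List.take_take, min_eq_left]
    exact (Nat.mul_le_mul_left _ (Nat.le_succ j)).trans hm
  have e2 : ((w.take m).drop (a0 * j)).take a0 = (w.drop (a0 * j)).take a0 := by
    rw [List.drop_take, List.take_take, min_eq_left]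
    rw [mul_add, mul_one] at hm
    omega
  rw [e1, e2]

theorem kap_take {c w : List A} {a0 : ℕ} {x : List A → A → Bool} {i m : ℕ}
    (hm : a0 * i ≤ m) : kap c a0 x i (w.take m) = kap c a0 x i w := by
  classical
  unfold kap
  congr 1
  apply Finset.filter_congr
  intro j hj
  apply cen_take
  exact (Nat.mul_le_mul_left _ (Nat.succ_le_of_lt (Finset.mem_range.1 hj))).trans hm

variable [Fintype A]

theorem sum_words_add {M : Type*} [AddCommMonoid M] (k l : ℕ) (f : List A → M) :
    ∑ w ∈ words A (k + l), f w = ∑ u ∈ words A k, ∑ v ∈ words A l, f (u ++ v) := by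
  induction k generalizing f with
  | zero => simp [words]
  | succ k ih =>
    have e : k + 1 + l = (k + l) + 1 := by ring
    rw [e, sum_words_succ, sum_words_succ]
    apply Finset.sum_congr rfl
    intro a _
    rw [ih]
    rfl

open Classical in
theorem fsum_eq (a0 : ℕ) (c : List A) (t : ℝ≥0∞) (i : ℕ) (x : List A → A → Bool) :
    fsum a0 c t i x = ∑ u ∈ words A (a0 * i), if kept x u then t ^ kap c a0 x i u else 0 := by
  induction i generalizing x with
  | zero =>
    have hk : kept x [] := trivial
    rw [mul_zero]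
    show (1 : ℝ≥0∞) = ∑ u ∈ ({[]} : Finset (List A)), if kept x u then t ^ kap c a0 x 0 u else 0
    rw [Finset.sum_singleton, if_pos hk]
    simp [kap]
  | succ i ih =>
    have e : a0 * (i + 1) = a0 + a0 * i := by ring
    rw [e, sum_words_add]
    have : fsum a0 c t (i + 1) x = ∑ b ∈ words A a0, wt c t b x * fsum a0 c t i (sub x b) := rfl
    rw [this]
    apply Finset.sum_congr rfl
    intro b hb
    rw [ih, Finset.mul_sum]
    apply Finset.sum_congr rfl
    intro v _
    rw [kap_succ_append (mem_words.1 hb)]
    unfold wt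
    by_cases h1 : kept x b
    · by_cases h2 : kept (sub x b) v
      · have h3 : kept x (b ++ v) := (kept_append _ _ _).2 ⟨h1, h2⟩
        rw [if_pos h1, if_pos h2, if_pos h3]
        by_cases h4 : b = c ∧ exact x c
        · rw [if_pos h4, if_pos h4, pow_add, pow_one]
        · rw [if_neg h4, if_neg h4, zero_add, one_mul]
      · have h3 : ¬ kept x (b ++ v) := fun h => h2 ((kept_append _ _ _).1 h).2
        rw [if_neg h2, if_neg h3, mul_zero]
    · have h3 : ¬ kept x (b ++ v) := fun h => h1 ((kept_append _ _ _).1 h).1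
      rw [if_neg h1, if_neg h3, zero_mul]

end words

variable {d n : ℕ}

/-- The requirements on the central letter. -/
structure Central (a0 : ℕ) (c : List (Fin d → Fin n)) : Prop where
  hd : 0 < d
  hn : 0 < n
  len : c.length = a0
  lo : ∀ i, 1 / (2 * (n : ℝ)) ≤ corner c i
  hi : ∀ i, corner c i + 1 / (n : ℝ) ^ c.length ≤ 1 - 1 / (2 * (n : ℝ))
  big : 16 * (n : ℝ) * d ≤ (n : ℝ) ^ a0

/-- `y` lies in the central cell of the cube `u`. -/
def cellAt (a0 : ℕ) (c : List (Fin d → Fin n))
    (x : List (Fin d → Fin n) → (Fin d → Fin n) → Bool) (i : ℕ)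
    (y : EuclideanSpace ℝ (Fin d)) (u : List (Fin d → Fin n)) : Prop :=
  u.length = a0 * i ∧ kept x u ∧ exact (sub x u) c ∧ y ∈ cube (u ++ c)

theorem Central.npos {a0 : ℕ} {c : List (Fin d → Fin n)} (hC : Central a0 c) : (0:ℝ) < n := by
  exact_mod_cast hC.hn

theorem cellAt_unique {a0 : ℕ} {c : List (Fin d → Fin n)} (hC : Central a0 c)
    {x : List (Fin d → Fin n) → (Fin d → Fin n) → Bool} {i : ℕ}
    {y : EuclideanSpace ℝ (Fin d)} {u u' : List (Fin d → Fin n)} (h : cellAt a0 c x i y u)
    (h' : cellAt a0 c x i y u') : u = u' := by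
  by_contra hne
  have := isolation hC.hn hC.lo hC.hi (h.1.trans h'.1.symm) hne h.2.2.2
    (cube_append_subset hC.hn _ _ h'.2.2.2)
  rw [sub_self, norm_zero] at this
  have hn := hC.npos
  have h2 : 0 < 1 / (2 * (n : ℝ)) / (n : ℝ) ^ u.length := by positivity
  linarith

open Classical in
/-- The centre of the cell of level `i` containing `y`. -/
noncomputable def cellCtr (a0 : ℕ) (c : List (Fin d → Fin n))
    (x : List (Fin d → Fin n) → (Fin d → Fin n) → Bool) (i : ℕ)
    (y : EuclideanSpace ℝ (Fin d)) : EuclideanSpace ℝ (Fin d) :=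
  if h : ∃ u, cellAt a0 c x i y u then cpt (h.choose ++ c) else 0

theorem cellCtr_eq {a0 : ℕ} {c : List (Fin d → Fin n)} (hC : Central a0 c)
    {x : List (Fin d → Fin n) → (Fin d → Fin n) → Bool} {i : ℕ}
    {y : EuclideanSpace ℝ (Fin d)} {u : List (Fin d → Fin n)} (h : cellAt a0 c x i y u) :
    cellCtr a0 c x i y = cpt (u ++ c) := by
  have hex : ∃ u, cellAt a0 c x i y u := ⟨u, h⟩
  unfold cellCtr
  rw [dif_pos hex, cellAt_unique hC hex.choose_spec h]

/-- Any point of the limit set is in the same cell or far away. -/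
theorem cell_sep {a0 : ℕ} {c : List (Fin d → Fin n)} (hC : Central a0 c)
    {x : List (Fin d → Fin n) → (Fin d → Fin n) → Bool} {i : ℕ}
    {y z : EuclideanSpace ℝ (Fin d)} {u : List (Fin d → Fin n)} (h : cellAt a0 c x i y u)
    (hz : z ∈ lim x) :
    cellAt a0 c x i z u ∨ 1 / (2 * (n : ℝ)) / (n : ℝ) ^ u.length ≤ ‖y - z‖ := by
  obtain ⟨hu, hk, he, hy⟩ := h
  obtain ⟨w, hw, hkw, hzw⟩ := hz (a0 * i + a0)
  by_cases hcase : u = w.take (a0 * i)
  · left
    have hsplit : w = u ++ w.drop (a0 * i) := by rw [hcase]; exact (List.take_append_drop _ _).symm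
    have hv : w.drop (a0 * i) = c := by
      apply exact_unique _ he
      · rw [hsplit, kept_append] at hkw; exact hkw.2
      · rw [List.length_drop, hw, hC.len]; omega
    rw [hv] at hsplit
    rw [hsplit] at hzw
    exact ⟨hu, hk, he, hzw⟩
  · right
    apply isolation hC.hn hC.lo hC.hi (u' := w.take (a0 * i)) _ hcase hy
    · rw [← List.take_append_drop (a0 * i) w] at hzw
      exact cube_append_subset hC.hn _ _ hzw
    · rw [List.length_take, hw, hu]; omega

/-- The nested family of cells of the limit set. -/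
noncomputable def theCells {a0 : ℕ} {c : List (Fin d → Fin n)} (hC : Central a0 c)
    (x : List (Fin d → Fin n) → (Fin d → Fin n) → Bool) : Cells (lim x) where
  ch i y := ∃ u, cellAt a0 c x i y u
  ctr := cellCtr a0 c x
  rho := d / (n : ℝ) ^ a0
  N := (n : ℝ) ^ a0
  rho_pos := by
    have h1 : (0:ℝ) < d := by exact_mod_cast hC.hd
    have h2 := hC.npos
    positivity
  four_le := by
    refine le_trans ?_ hC.big
    have h1 : (1:ℝ) ≤ d := by exact_mod_cast hC.hd
    have h2 : (1:ℝ) ≤ n := by exact_mod_cast hC.hn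
    have h3 : (1:ℝ) ≤ n * d := by nlinarith
    nlinarith
  near i y hy := by
    rintro ⟨u, hu⟩
    rw [cellCtr_eq hC hu]
    refine (norm_cube_le hu.2.2.2 (cpt_mem _)).trans (le_of_eq ?_)
    have hn := hC.npos
    rw [List.length_append, hu.1, hC.len, pow_add, ← pow_mul]
    field_simp
  sep i y hy z hz := by
    rintro ⟨u, hu⟩
    rcases cell_sep hC hu hz with h | h
    · left
      exact ⟨⟨u, h⟩, by rw [cellCtr_eq hC hu, cellCtr_eq hC h]⟩
    · right
      refine le_trans ?_ h
      have hn := hC.npos
      have hbig := hC.big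
      rw [hu.1, ← pow_mul, ← mul_div_assoc]
      apply div_le_div_of_nonneg_right _ (by positivity)
      rw [← mul_div_assoc, div_le_div_iff₀ (by positivity) (by positivity)]
      nlinarith

/-- Contraction inside coarse cubes. -/
theorem diam_image {a0 : ℕ} {c : List (Fin d → Fin n)} (hC : Central a0 c)
    {x : List (Fin d → Fin n) → (Fin d → Fin n) → Bool} {i : ℕ} {u : List (Fin d → Fin n)}
    (hu : u.length = a0 * i) (hk : kept x u) {y z : EuclideanSpace ℝ (Fin d)}
    (hy : y ∈ lim x) (hz : z ∈ lim x) (hyu : y ∈ cube u) (hzu : z ∈ cube u) :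
    ‖(theCells hC x).f y - (theCells hC x).f z‖ ≤
      5 / 4 * ((1 / 4) ^ kap c a0 x i u * (d * (1 / ((n : ℝ) ^ a0) ^ i))) := by
  classical
  have hin : ∀ {y}, y ∈ cube u → ∀ j ∈ (Finset.range i).filter (fun j => cen c a0 x u j),
      cellAt a0 c x j y (u.take (a0 * j)) := by
    intro y hy j hj
    rw [Finset.mem_filter, Finset.mem_range] at hj
    obtain ⟨hj, h1, h2⟩ := hj
    have hle : a0 * (j + 1) ≤ a0 * i := Nat.mul_le_mul_left _ (Nat.succ_le_of_lt hj)
    refine ⟨?_, kept_take _ hk, h2, ?_⟩
    · rw [List.length_take, hu]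
      rw [mul_add, mul_one] at hle
      omega
    · have e : u = (u.take (a0 * j) ++ c) ++ (u.drop (a0 * j)).drop a0 := by
        rw [List.append_assoc, ← h1, List.take_append_drop, List.take_append_drop]
      rw [e] at hy
      exact cube_append_subset hC.hn _ _ hy
  have h := (theCells hC x).upper_of_common hy hz
    ((Finset.range i).filter (fun j => cen c a0 x u j)) (by
      intro j hj
      have h1 := hin hyu j hj
      have h2 := hin hzu j hj
      exact ⟨⟨_, h1⟩, ⟨_, h2⟩, by
        show cellCtr a0 c x j z = cellCtr a0 c x j y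
        rw [cellCtr_eq hC h1, cellCtr_eq hC h2]⟩)
  refine h.trans ?_
  apply mul_le_mul_of_nonneg_left _ (by norm_num)
  apply mul_le_mul_of_nonneg_left _ (by positivity)
  have h3 := norm_cube_le hyu hzu
  rwa [hu, pow_mul] at h3

end Pool.Agent.H36.Perc
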