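import Pool.Agent.H36.Perc.Path

open MeasureTheory ProbabilityTheory Set
open scoped ENNReal NNReal

namespace Pool.Agent.H36.Perc

section words

theorem cons_pair_injective (A : Type*) :
    Function.Injective (fun p : A × List A => p.1 :: p.2) := by
  intro p q h
  simp only [List.cons.injEq] at h
  exact Prod.ext h.1 h.2

variable (A : Type*) [Fintype A]

/-- The finite set of words of length `k`. -/
def words : ℕ → Finset (List A)
  | 0 => {[]}
  | k + 1 => (Finset.univ ×ˢ words k).map ⟨_, cons_pair_injective A⟩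

variable {A}

theorem mem_words {k : ℕ} {w : List A} : w ∈ words A k ↔ w.length = k := by
  induction k generalizing w with
  | zero => simp [words]
  | succ k ih =>
    simp only [words, Finset.mem_map, Finset.mem_product, Finset.mem_univ, true_and,
      Function.Embedding.coeFn_mk, Prod.exists]
    constructor
    · rintro ⟨a, v, hv, rfl⟩
      simp [ih.1 hv]
    · intro h
      cases w with
      | nil => simp at h
      | cons a v => exact ⟨a, v, ih.2 (by simpa using h), rfl⟩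

theorem sum_words_succ {M : Type*} [AddCommMonoid M] (k : ℕ) (f : List A → M) :
    ∑ w ∈ words A (k + 1), f w = ∑ a : A, ∑ w ∈ words A k, f (a :: w) := by
  rw [words, Finset.sum_map, Finset.sum_product]
  rfl

theorem card_words (k : ℕ) : (words A k).card = Fintype.card A ^ k := by
  rw [Finset.card_eq_sum_ones]
  induction k with
  | zero => simp [words]
  | succ k ih => rw [sum_words_succ]; simp [ih, pow_succ, mul_comm]

end words

/-- A second moment lower bound for a probability. -/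
theorem second_moment {Ω : Type*} [MeasurableSpace Ω] (μ : Measure Ω) [IsProbabilityMeasure μ]
    {Y : Ω → ℝ≥0∞} (hY : Measurable Y) {c V : ℝ≥0} (hc : 0 < c) (hV : 0 < V)
    (h1 : (c : ℝ≥0∞) ≤ ∫⁻ x, Y x ∂μ) (h2 : ∫⁻ x, Y x * Y x ∂μ ≤ V) :
    ((c * c / (16 * V) : ℝ≥0) : ℝ≥0∞) ≤ μ {x | ((c / 2 : ℝ≥0) : ℝ≥0∞) ≤ Y x} := by
  set E : Set Ω := {x | ((c / 2 : ℝ≥0) : ℝ≥0∞) ≤ Y x} with hE
  have hEm : MeasurableSet E := measurableSet_le measurable_const hY
  set l : ℝ≥0 := c / (4 * V) with hl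
  have hl0 : 0 < l := by positivity
  have hpt : ∀ x, Y x ≤ ((c / 2 : ℝ≥0) : ℝ≥0∞) + (l : ℝ≥0∞) * (Y x * Y x) +
      ((l⁻¹ : ℝ≥0) : ℝ≥0∞) * indicator E 1 x := by
    intro x
    by_cases hx : x ∈ E
    · rw [indicator_of_mem hx, Pi.one_apply, mul_one]
      by_cases hx2 : Y x ≤ ((l⁻¹ : ℝ≥0) : ℝ≥0∞)
      · exact hx2.trans le_add_self
      · push Not at hx2
        have : 1 ≤ (l : ℝ≥0∞) * Y x := by
          have h3 : (l : ℝ≥0∞) * ((l⁻¹ : ℝ≥0) : ℝ≥0∞) = 1 := by
            rw [← ENNReal.coe_mul, mul_inv_cancel₀ hl0.ne', ENNReal.coe_one]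
          rw [← h3]
          gcongr
        have h4 : Y x ≤ (l : ℝ≥0∞) * (Y x * Y x) := by
          calc Y x = 1 * Y x := (one_mul _).symm
            _ ≤ ((l : ℝ≥0∞) * Y x) * Y x := by gcongr
            _ = _ := by rw [mul_assoc]
        calc Y x ≤ (l : ℝ≥0∞) * (Y x * Y x) := h4
          _ ≤ ((c / 2 : ℝ≥0) : ℝ≥0∞) + (l : ℝ≥0∞) * (Y x * Y x) := le_add_self
          _ ≤ _ := le_self_add
    · have : Y x ≤ ((c / 2 : ℝ≥0) : ℝ≥0∞) := by
        rw [hE, mem_ofPred_eq, not_le] at hx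
        exact hx.le
      exact this.trans (le_self_add.trans le_self_add)
  have hint : (c : ℝ≥0∞) ≤ ((c / 2 : ℝ≥0) : ℝ≥0∞) + (l : ℝ≥0∞) * V +
      ((l⁻¹ : ℝ≥0) : ℝ≥0∞) * μ E := by
    calc (c : ℝ≥0∞) ≤ ∫⁻ x, Y x ∂μ := h1
      _ ≤ ∫⁻ x, (((c / 2 : ℝ≥0) : ℝ≥0∞) + (l : ℝ≥0∞) * (Y x * Y x) +
          ((l⁻¹ : ℝ≥0) : ℝ≥0∞) * indicator E 1 x) ∂μ := lintegral_mono hpt
      _ = ((c / 2 : ℝ≥0) : ℝ≥0∞) + (l : ℝ≥0∞) * ∫⁻ x, Y x * Y x ∂μ +
          ((l⁻¹ : ℝ≥0) : ℝ≥0∞) * μ E := by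
        rw [lintegral_add_left, lintegral_add_left, lintegral_const_mul, lintegral_const_mul,
          lintegral_indicator_one hEm]
        · simp
        · exact measurable_one.indicator hEm
        · exact hY.mul hY
        · exact measurable_const
        · exact measurable_const.add ((hY.mul hY).const_mul _)
      _ ≤ _ := by gcongr
  have hfin : μ E ≠ ∞ := measure_ne_top _ _
  lift μ E to ℝ≥0 using hfin with e he
  rw [← ENNReal.coe_mul, ← ENNReal.coe_mul, ← ENNReal.coe_add, ← ENNReal.coe_add,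
    ENNReal.coe_le_coe] at hint
  rw [ENNReal.coe_le_coe]
  have hint' : (c : ℝ) ≤ c / 2 + l * V + (l : ℝ)⁻¹ * e := by exact_mod_cast hint
  rw [← NNReal.coe_le_coe]
  push_cast
  have hlV : (l : ℝ) * V = c / 4 := by
    rw [hl]; push_cast
    have : (V : ℝ) ≠ 0 := by exact_mod_cast hV.ne'
    field_simp
  have hlpos : (0 : ℝ) < l := by exact_mod_cast hl0
  have h5 : (c : ℝ) / 4 ≤ (l : ℝ)⁻¹ * e := by linarith
  have h6 : (c : ℝ) / 4 * l ≤ e := by
    have := mul_le_mul_of_nonneg_right h5 hlpos.le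
    rwa [mul_assoc, mul_comm (e : ℝ) l, ← mul_assoc, inv_mul_cancel₀ hlpos.ne', one_mul] at this
  refine le_trans (le_of_eq ?_) h6
  rw [hl]; push_cast
  have : (V : ℝ) ≠ 0 := by exact_mod_cast hV.ne'
  field_simp
  ring

end Pool.Agent.H36.Perc
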