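import Pool.Agent.H36.Perc.Cell

open MeasureTheory ProbabilityTheory Set Filter Metric
open scoped ENNReal NNReal Topology

namespace Pool.Agent.H36.Perc

variable {d n : ℕ}

/-- The size of a coarse word. -/
noncomputable def wsz (a0 : ℕ) (c : List (Fin d → Fin n))
    (x : List (Fin d → Fin n) → (Fin d → Fin n) → Bool) (i : ℕ) (u : List (Fin d → Fin n)) : ℝ :=
  (1 / 4) ^ kap c a0 x i u * (1 / ((n : ℝ) ^ a0) ^ i)

theorem exists_word {a0 : ℕ} {c : List (Fin d → Fin n)} (hC : Central a0 c)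
    {x : List (Fin d → Fin n) → (Fin d → Fin n) → Bool} {y : EuclideanSpace ℝ (Fin d)}
    (hy : y ∈ lim x) {r : ℝ} (hr0 : 0 < r) (hr1 : r < 1) {J : ℕ}
    (hJ : 1 / ((n : ℝ) ^ a0) ^ J ≤ r) :
    ∃ i ≤ J, ∃ u, u.length = a0 * i ∧ kept x u ∧ y ∈ cube u ∧ wsz a0 c x i u ≤ r ∧
      r < 4 * (n : ℝ) ^ a0 * wsz a0 c x i u := by
  classical
  have hn := hC.npos
  set N : ℝ := (n : ℝ) ^ a0 with hN
  have hNpos : 0 < N := by positivity
  obtain ⟨w, hw, hk, hyw⟩ := hy (a0 * J)
  set W : ℕ → ℝ := fun i => (1 / 4) ^ kap c a0 x i w * (1 / N ^ i) with hW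
  have hex : ∃ i, W i ≤ r := by
    refine ⟨J, le_trans ?_ hJ⟩
    have h1 : ((1:ℝ) / 4) ^ kap c a0 x J w ≤ 1 := pow_le_one₀ (by norm_num) (by norm_num)
    have h2 : (0:ℝ) ≤ 1 / N ^ J := by positivity
    show (1 / 4) ^ kap c a0 x J w * (1 / N ^ J) ≤ 1 / N ^ J
    nlinarith
  set i := Nat.find hex with hi
  have hiJ : i ≤ J := by
    apply Nat.find_min' hex
    refine le_trans ?_ hJ
    have h1 : ((1:ℝ) / 4) ^ kap c a0 x J w ≤ 1 := pow_le_one₀ (by norm_num) (by norm_num)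
    have h2 : (0:ℝ) ≤ 1 / N ^ J := by positivity
    show (1 / 4) ^ kap c a0 x J w * (1 / N ^ J) ≤ 1 / N ^ J
    nlinarith
  have hWi : W i ≤ r := Nat.find_spec hex
  have hWu : wsz a0 c x i (w.take (a0 * i)) = W i := by
    unfold wsz
    rw [kap_take le_rfl]
  refine ⟨i, hiJ, w.take (a0 * i), ?_, kept_take _ hk, ?_, ?_, ?_⟩
  · rw [List.length_take, hw, min_eq_left (Nat.mul_le_mul_left _ hiJ)]
  · rw [← List.take_append_drop (a0 * i) w] at hyw
    exact cube_append_subset hC.hn _ _ hyw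
  · rw [hWu]; exact hWi
  · rw [hWu]
    have hi0 : i ≠ 0 := by
      intro h0
      rw [h0] at hWi
      have : W 0 = 1 := by simp [hW, kap]
      linarith
    obtain ⟨m, hm⟩ := Nat.exists_eq_succ_of_ne_zero hi0
    have hWm : r < W m := by
      have := Nat.find_min hex (m := m) (by omega)
      exact not_le.1 this
    refine lt_of_lt_of_le hWm ?_
    rw [hm]
    show (1 / 4) ^ kap c a0 x m w * (1 / N ^ m) ≤
      4 * N * ((1 / 4) ^ kap c a0 x (m + 1) w * (1 / N ^ (m + 1)))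
    have hle : kap c a0 x (m + 1) w ≤ kap c a0 x m w + 1 := by
      rw [kap_succ]
      split_ifs <;> omega
    have h3 : ((1:ℝ) / 4) ^ (kap c a0 x m w + 1) ≤ (1 / 4) ^ kap c a0 x (m + 1) w :=
      pow_le_pow_of_le_one (by norm_num) (by norm_num) hle
    have h4 : 4 * N * (((1:ℝ) / 4) ^ (kap c a0 x m w + 1) * (1 / N ^ (m + 1))) =
        (1 / 4) ^ kap c a0 x m w * (1 / N ^ m) := by
      rw [pow_succ, pow_succ]
      field_simp
    rw [← h4]
    gcongr

/-- The size of a coarse word raised to a power. -/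
theorem one_le_weight {a0 : ℕ} {c : List (Fin d → Fin n)} (hC : Central a0 c)
    {x : List (Fin d → Fin n) → (Fin d → Fin n) → Bool} {r q : ℝ} (hr0 : 0 < r) (hq : 0 ≤ q)
    {i : ℕ} {u : List (Fin d → Fin n)} (h : r < 4 * (n : ℝ) ^ a0 * wsz a0 c x i u) :
    1 ≤ ENNReal.ofReal ((4 * (n : ℝ) ^ a0 / r) ^ q) *
      (ENNReal.ofReal (((n : ℝ) ^ a0) ^ (-q)) ^ i *
        ENNReal.ofReal ((1 / 4) ^ q) ^ kap c a0 x i u) := by
  have hn := hC.npos
  set N : ℝ := (n : ℝ) ^ a0 with hN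
  have hNpos : 0 < N := by positivity
  rw [← ENNReal.ofReal_pow (by positivity), ← ENNReal.ofReal_pow (by positivity),
    ← ENNReal.ofReal_mul (by positivity), ← ENNReal.ofReal_mul (by positivity),
    ENNReal.one_le_ofReal]
  have hw : wsz a0 c x i u = (1 / 4) ^ kap c a0 x i u * (1 / N ^ i) := rfl
  have hwpos : 0 < wsz a0 c x i u := by rw [hw]; positivity
  have h1 : (4 * N / r) ^ q * ((N ^ (-q)) ^ i * ((1 / 4 : ℝ) ^ q) ^ kap c a0 x i u) =
      (4 * N / r * wsz a0 c x i u) ^ q := by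
    rw [Real.mul_rpow (by positivity) hwpos.le, hw, Real.mul_rpow (by positivity) (by positivity)]
    have e1 : ((1 / 4 : ℝ) ^ q) ^ kap c a0 x i u = ((1 / 4 : ℝ) ^ kap c a0 x i u) ^ q := by
      rw [← Real.rpow_pow_comm (by norm_num)]
    have e2 : (N ^ (-q)) ^ i = (1 / N ^ i) ^ q := by
      rw [Real.rpow_neg hNpos.le, one_div, Real.inv_rpow (by positivity), inv_pow,
        Real.rpow_pow_comm hNpos.le]
    rw [e1, e2]
    ring
  rw [h1]
  apply Real.one_le_rpow _ hq
  have : 4 * N / r * wsz a0 c x i u = (4 * N * wsz a0 c x i u) / r := by ring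
  rw [this, one_le_div hr0]
  exact h.le

/-- The covering number bound for the image. -/
theorem cover_bound {a0 : ℕ} {c : List (Fin d → Fin n)} (hC : Central a0 c)
    {x : List (Fin d → Fin n) → (Fin d → Fin n) → Bool} {q : ℝ} (hq : 0 ≤ q)
    {r : ℝ} (hr0 : 0 < r) (hr1 : r < 1) :
    ((coveringNumber (5 / 4 * (d * r)).toNNReal
      (univ : Set (Set.range fun y : lim x => (theCells hC x).f y)) : ℕ∞) : ℝ≥0∞) ≤
      ENNReal.ofReal ((4 * (n : ℝ) ^ a0 / r) ^ q) *
        ∑' j, ENNReal.ofReal (((n : ℝ) ^ a0) ^ (-q)) ^ j *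
          fsum a0 c (ENNReal.ofReal ((1 / 4) ^ q)) j x := by
  classical
  have hn := hC.npos
  set N : ℝ := (n : ℝ) ^ a0 with hN
  have hNpos : 0 < N := by positivity
  set g : lim x → (Set.range fun y : lim x => (theCells hC x).f y) :=
    fun y => ⟨(theCells hC x).f y, ⟨y, rfl⟩⟩ with hg
  rcases isEmpty_or_nonempty (lim x) with hemp | ⟨⟨y0⟩⟩
  · have : (univ : Set (Set.range fun y : lim x => (theCells hC x).f y)) = ∅ := by
      ext z
      obtain ⟨z, y, hy⟩ := z
      exact (hemp.false y).elim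
    rw [this]
    simp
  -- choose the number of levels
  obtain ⟨J, hJ⟩ : ∃ J : ℕ, 1 / N ^ J ≤ r := by
    have hN4 : 4 ≤ N := (theCells hC x).four_le
    obtain ⟨J, hJ⟩ := exists_pow_lt_of_lt_one hr0 (y := 1 / N) (by
      rw [div_lt_one hNpos]; linarith)
    exact ⟨J, by rw [one_div, ← inv_pow, ← one_div]; exact hJ.le⟩
  set T : ℕ → Finset (List (Fin d → Fin n)) := fun i =>
    (words (Fin d → Fin n) (a0 * i)).filter
      (fun u => kept x u ∧ r < 4 * N * wsz a0 c x i u) with hT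
  set pt : List (Fin d → Fin n) → lim x := fun u =>
    if h : ∃ y : lim x, (y : EuclideanSpace ℝ (Fin d)) ∈ cube u then h.choose else y0 with hpt
  set C : Finset (Set.range fun y : lim x => (theCells hC x).f y) :=
    (Finset.range (J + 1)).biUnion (fun i => (T i).image (fun u => g (pt u))) with hCdef
  have hcov : IsCover (5 / 4 * (d * r)).toNNReal
      (univ : Set (Set.range fun y : lim x => (theCells hC x).f y)) (C : Set _) := by
    rw [isCover_iff_subset_iUnion_closedBall]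
    rintro ⟨z, y, hy⟩ _
    obtain ⟨i, hiJ, u, hu, hk, hyu, hw1, hw2⟩ := exists_word hC y.2 hr0 hr1 hJ
    rw [mem_iUnion₂]
    have hex : ∃ y : lim x, (y : EuclideanSpace ℝ (Fin d)) ∈ cube u := ⟨y, hyu⟩
    have hp : (pt u : EuclideanSpace ℝ (Fin d)) ∈ cube u := by
      simp only [hpt, dif_pos hex]
      exact hex.choose_spec
    refine ⟨g (pt u), ?_, ?_⟩
    · rw [hCdef, Finset.mem_coe, Finset.mem_biUnion]
      refine ⟨i, Finset.mem_range.2 (by omega), Finset.mem_image.2 ⟨u, ?_, rfl⟩⟩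
      rw [hT, Finset.mem_filter]
      exact ⟨mem_words.2 hu, hk, hw2⟩
    · rw [Metric.mem_closedBall, Subtype.dist_eq, dist_eq_norm, Real.coe_toNNReal _ (by positivity)]
      have h := diam_image hC hu hk y.2 (pt u).2 hyu hp
      have h' : ‖z - (theCells hC x).f (pt u)‖ ≤
          5 / 4 * ((1 / 4) ^ kap c a0 x i u * (d * (1 / ((n : ℝ) ^ a0) ^ i))) := by
        have hy' : (theCells hC x).f y = z := hy
        rw [← hy']; exact h
      refine h'.trans ?_
      apply mul_le_mul_of_nonneg_left _ (by norm_num)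
      have : (1 / 4 : ℝ) ^ kap c a0 x i u * (d * (1 / ((n : ℝ) ^ a0) ^ i)) =
          d * wsz a0 c x i u := by unfold wsz; ring
      rw [this]
      exact mul_le_mul_of_nonneg_left hw1 (by positivity)
  have h1 := hcov.coveringNumber_le_encard (subset_univ _)
  have h2 : ((coveringNumber (5 / 4 * (d * r)).toNNReal
      (univ : Set (Set.range fun y : lim x => (theCells hC x).f y)) : ℕ∞) : ℝ≥0∞) ≤
      (C.card : ℝ≥0∞) := by
    rw [Set.encard_coe_eq_coe_finsetCard] at h1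
    have h3 : ((coveringNumber (5 / 4 * (d * r)).toNNReal
      (univ : Set (Set.range fun y : lim x => (theCells hC x).f y)) : ℕ∞) : ℝ≥0∞) ≤
      (((C.card : ℕ) : ℕ∞) : ℝ≥0∞) := ENat.toENNReal_le.2 h1
    simpa using h3
  refine h2.trans ?_
  have h3 : C.card ≤ ∑ i ∈ Finset.range (J + 1), (T i).card := by
    refine Finset.card_biUnion_le.trans ?_
    exact Finset.sum_le_sum fun i _ => Finset.card_image_le
  have h4 : ∀ i, ((T i).card : ℝ≥0∞) ≤ ENNReal.ofReal ((4 * N / r) ^ q) *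
      (ENNReal.ofReal (N ^ (-q)) ^ i * fsum a0 c (ENNReal.ofReal ((1 / 4) ^ q)) i x) := by
    intro i
    rw [fsum_eq, Finset.card_eq_sum_ones, Nat.cast_sum, Finset.mul_sum, Finset.mul_sum,
      hT, Finset.sum_filter]
    apply Finset.sum_le_sum
    intro u _
    split_ifs with h5 h6
    · rw [Nat.cast_one]
      exact one_le_weight hC hr0 hq h5.2
    · exact absurd h5.1 h6
    · exact zero_le
    · exact zero_le
  calc (C.card : ℝ≥0∞) ≤ ((∑ i ∈ Finset.range (J + 1), (T i).card : ℕ) : ℝ≥0∞) := by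
        exact_mod_cast h3
    _ = ∑ i ∈ Finset.range (J + 1), ((T i).card : ℝ≥0∞) := by push_cast; rfl
    _ ≤ ∑ i ∈ Finset.range (J + 1), ENNReal.ofReal ((4 * N / r) ^ q) *
      (ENNReal.ofReal (N ^ (-q)) ^ i * fsum a0 c (ENNReal.ofReal ((1 / 4) ^ q)) i x) :=
        Finset.sum_le_sum fun i _ => h4 i
    _ = ENNReal.ofReal ((4 * N / r) ^ q) * ∑ i ∈ Finset.range (J + 1),
      (ENNReal.ofReal (N ^ (-q)) ^ i * fsum a0 c (ENNReal.ofReal ((1 / 4) ^ q)) i x) := by
        rw [Finset.mul_sum]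
    _ ≤ _ := by
        gcongr
        exact ENNReal.sum_le_tsum _

end Pool.Agent.H36.Perc
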