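import Mathlib

open Set Filter Topology
open scoped NNReal

namespace Pool.Agent.H36.Perc

/-- A nested family of well isolated cells in a subset of a normed space. -/
structure Cells {E : Type*} [NormedAddCommGroup E] (F : Set E) where
  /-- `ch i y` says that `y` lies in a cell of level `i`. -/
  ch : ℕ → E → Prop
  /-- the centre of that cell -/
  ctr : ℕ → E → E
  /-- radius of the cell of level `0` -/
  rho : ℝ
  /-- ratio of the radii of consecutive levels -/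
  N : ℝ
  rho_pos : 0 < rho
  four_le : 4 ≤ N
  near : ∀ i, ∀ y ∈ F, ch i y → ‖y - ctr i y‖ ≤ rho / N ^ i
  sep : ∀ i, ∀ y ∈ F, ∀ z ∈ F, ch i y →
    (ch i z ∧ ctr i z = ctr i y) ∨ 8 * (rho / N ^ i) ≤ ‖y - z‖

namespace Cells

variable {E : Type*} [NormedAddCommGroup E] {F : Set E} (C : Cells F)

/-- The radius of the cells of level `i`. -/
noncomputable def r (i : ℕ) : ℝ := C.rho / C.N ^ i

theorem N_pos : 0 < C.N := lt_of_lt_of_le (by norm_num) C.four_le

theorem r_pos (i : ℕ) : 0 < C.r i := div_pos C.rho_pos (pow_pos C.N_pos _)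

theorem r_add (i j : ℕ) : C.r (i + j) ≤ C.r i * (1 / 4) ^ j := by
  have h1 : C.r (i + j) = C.r i * (1 / C.N) ^ j := by
    unfold r
    rw [pow_add, one_div, inv_pow, ← div_div, div_eq_mul_inv (C.rho / C.N ^ i)]
  rw [h1]
  have h2 : 1 / C.N ≤ 1 / 4 := one_div_le_one_div_of_le (by norm_num) C.four_le
  have h3 : 0 ≤ 1 / C.N := (one_div_pos.2 C.N_pos).le
  exact mul_le_mul_of_nonneg_left (pow_le_pow_left₀ h3 h2 j) (C.r_pos i).le

theorem r_anti {i j : ℕ} (h : i ≤ j) : C.r j ≤ C.r i := by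
  obtain ⟨k, rfl⟩ := Nat.exists_eq_add_of_le h
  refine (C.r_add i k).trans ?_
  have : ((1:ℝ) / 4) ^ k ≤ 1 := pow_le_one₀ (by norm_num) (by norm_num)
  nlinarith [C.r_pos i]

open Classical in
/-- The number of cells of level less than `i` containing `y`. -/
noncomputable def k (i : ℕ) (y : E) : ℕ := ((Finset.range i).filter (fun j => C.ch j y)).card

theorem k_zero (y : E) : C.k 0 y = 0 := by simp [k]

open Classical in
theorem k_succ (i : ℕ) (y : E) : C.k (i + 1) y = C.k i y + if C.ch i y then 1 else 0 := by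
  unfold k
  rw [Finset.range_add_one, Finset.filter_insert]
  split_ifs with h
  · rw [Finset.card_insert_of_notMem (by simp)]
  · rfl

theorem k_mono {i j : ℕ} (h : i ≤ j) (y : E) : C.k i y ≤ C.k j y := by
  classical
  unfold k
  apply Finset.card_le_card
  apply Finset.filter_subset_filter
  exact Finset.range_mono h

theorem k_add_le (i j : ℕ) (y : E) : C.k (i + j) y ≤ C.k i y + j := by
  classical
  induction j with
  | zero => simp
  | succ j ih =>
    rw [← add_assoc, k_succ]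
    split_ifs <;> omega

theorem exists_last {i : ℕ} {y : E} {m : ℕ} (h : C.k i y = m + 1) :
    ∃ j < i, C.ch j y ∧ C.k j y = m := by
  classical
  induction i with
  | zero => rw [k_zero] at h; omega
  | succ i ih =>
    by_cases hi : C.ch i y
    · refine ⟨i, Nat.lt_succ_self i, hi, ?_⟩
      rw [k_succ, if_pos hi] at h
      omega
    · rw [k_succ, if_neg hi, add_zero] at h
      obtain ⟨j, hj, h1, h2⟩ := ih h
      exact ⟨j, hj.trans (Nat.lt_succ_self i), h1, h2⟩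

variable [NormedSpace ℝ E]

open Classical in
/-- The displacement at level `i`. -/
noncomputable def g (i : ℕ) (y : E) : E :=
  if C.ch i y then ((1:ℝ) / 4) ^ (C.k i y) • (y - C.ctr i y) else 0

/-- The map contracting every cell towards its centre by the factor `1/4`. -/
noncomputable def f (y : E) : E := y - (3 / 4 : ℝ) • ∑' i, C.g i y

theorem norm_g_le {i0 i : ℕ} (hi : i0 ≤ i) {y : E} (hy : y ∈ F) :
    ‖C.g i y‖ ≤ (1 / 4) ^ (C.k i0 y) * C.r i := by
  unfold g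
  split_ifs with h
  · rw [norm_smul, Real.norm_of_nonneg (by positivity)]
    have h1 : ((1:ℝ) / 4) ^ (C.k i y) ≤ (1 / 4) ^ (C.k i0 y) :=
      pow_le_pow_of_le_one (by norm_num) (by norm_num) (C.k_mono hi y)
    have h2 := C.near i y hy h
    exact mul_le_mul h1 h2 (norm_nonneg _) (by positivity)
  · rw [norm_zero]
    have := (C.r_pos i).le
    positivity

theorem hasSum_geo (c : ℝ) : HasSum (fun i : ℕ => c * (1 / 4) ^ i) (c * (4 / 3)) := by
  have h := hasSum_geometric_of_lt_one (r := (1:ℝ) / 4) (by norm_num) (by norm_num)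
  have e : c * (4 / 3) = c * (1 - 1 / 4)⁻¹ := by norm_num
  rw [e]
  exact h.mul_left c

theorem norm_tail (i0 : ℕ) {y : E} (hy : y ∈ F) :
    ‖∑' i, C.g (i + i0) y‖ ≤ ((1 / 4) ^ (C.k i0 y) * C.r i0) * (4 / 3) := by
  refine tsum_of_norm_bounded (hasSum_geo _) (fun i => ?_)
  refine (C.norm_g_le (Nat.le_add_left i0 i) hy).trans ?_
  rw [mul_assoc]
  apply mul_le_mul_of_nonneg_left _ (by positivity)
  rw [add_comm]
  exact C.r_add i0 i

theorem summable_g [CompleteSpace E] {y : E} (hy : y ∈ F) : Summable fun i => C.g i y := by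
  refine Summable.of_norm_bounded (g := fun i => (1 * C.r 0) * (1 / 4) ^ i)
    (hasSum_geo _).summable (fun i => ?_)
  refine (C.norm_g_le (Nat.zero_le i) hy).trans ?_
  rw [k_zero, pow_zero, one_mul, one_mul]
  have := C.r_add 0 i
  rwa [zero_add] at this

omit [NormedSpace ℝ E] in
/-- Below the threshold level the two points lie in the same cells. -/
theorem common {i0 : ℕ} {y z : E} (hy : y ∈ F) (hz : z ∈ F)
    (hlt : ∀ i < i0, ‖y - z‖ < 8 * C.r i) (i : ℕ) (hi : i < i0) :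
    (C.ch i y ↔ C.ch i z) ∧ (C.ch i y → C.ctr i z = C.ctr i y) := by
  have h1 : C.ch i y → (C.ch i z ∧ C.ctr i z = C.ctr i y) := fun h => by
    rcases C.sep i y hy z hz h with h' | h'
    · exact h'
    · exact absurd h' (not_le.2 (hlt i hi))
  have h2 : C.ch i z → (C.ch i y ∧ C.ctr i y = C.ctr i z) := fun h => by
    rcases C.sep i z hz y hy h with h' | h'
    · exact h'
    · rw [norm_sub_rev] at h'
      exact absurd h' (not_le.2 (hlt i hi))
  exact ⟨⟨fun h => (h1 h).1, fun h => (h2 h).1⟩, fun h => (h1 h).2⟩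

omit [NormedSpace ℝ E] in
theorem k_eq {i0 : ℕ} {y z : E}
    (hc : ∀ i < i0, (C.ch i y ↔ C.ch i z) ∧ (C.ch i y → C.ctr i z = C.ctr i y)) :
    C.k i0 y = C.k i0 z := by
  classical
  unfold k
  congr 1
  apply Finset.filter_congr
  intro i hi
  exact (hc i (Finset.mem_range.1 hi)).1

theorem head_sum {i0 : ℕ} {y z : E}
    (hc : ∀ i < i0, (C.ch i y ↔ C.ch i z) ∧ (C.ch i y → C.ctr i z = C.ctr i y)) :
    (3 / 4 : ℝ) • (∑ i ∈ Finset.range i0, C.g i y - ∑ i ∈ Finset.range i0, C.g i z) =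
      (1 - ((1:ℝ) / 4) ^ (C.k i0 y)) • (y - z) := by
  classical
  induction i0 with
  | zero => simp [k_zero]
  | succ i ih =>
    have ih' := ih (fun j hj => hc j (hj.trans (Nat.lt_succ_self i)))
    have hk := C.k_eq (fun j hj => hc j (Nat.lt_succ_of_lt hj) : ∀ j < i, _)
    rw [Finset.sum_range_succ, Finset.sum_range_succ, add_sub_add_comm, smul_add, ih', k_succ]
    obtain ⟨h1, h2⟩ := hc i (Nat.lt_succ_self i)
    by_cases h : C.ch i y
    · have hz := h1.1 h
      rw [if_pos h]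
      unfold g
      have : y - C.ctr i y - (z - C.ctr i y) = y - z := by abel
      rw [if_pos h, if_pos hz, ← hk, h2 h, ← smul_sub, smul_smul, this, ← add_smul, pow_succ]
      congr 1
      ring
    · have hz : ¬ C.ch i z := fun h' => h (h1.2 h')
      rw [if_neg h]
      unfold g
      rw [if_neg h, if_neg hz]
      simp

/-- The two point estimate. -/
theorem two_point [CompleteSpace E] {i0 : ℕ} {y z : E} (hy : y ∈ F) (hz : z ∈ F)
    (hlt : ∀ i < i0, ‖y - z‖ < 8 * C.r i) (hge : 8 * C.r i0 ≤ ‖y - z‖) :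
    ‖(C.f y - C.f z) - ((1:ℝ) / 4) ^ (C.k i0 y) • (y - z)‖ ≤
      (1 / 4) ^ (C.k i0 y) * ‖y - z‖ * (1 / 4) := by
  have hc := C.common hy hz hlt
  have hk := C.k_eq hc
  have hs := C.head_sum hc
  have ey : C.f y = y - (3 / 4 : ℝ) • (∑ i ∈ Finset.range i0, C.g i y + ∑' i, C.g (i + i0) y) := by
    unfold f
    rw [(C.summable_g hy).sum_add_tsum_nat_add i0]
  have ez : C.f z = z - (3 / 4 : ℝ) • (∑ i ∈ Finset.range i0, C.g i z + ∑' i, C.g (i + i0) z) := by
    unfold f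
    rw [(C.summable_g hz).sum_add_tsum_nat_add i0]
  have key : (C.f y - C.f z) - ((1:ℝ) / 4) ^ (C.k i0 y) • (y - z) =
      (3 / 4 : ℝ) • (∑' i, C.g (i + i0) z - ∑' i, C.g (i + i0) y) := by
    rw [smul_sub] at hs
    have h5 := smul_sub (3 / 4 : ℝ) (∑' i, C.g (i + i0) z) (∑' i, C.g (i + i0) y)
    have h3 : (1 - ((1:ℝ) / 4) ^ (C.k i0 y)) • (y - z) =
        (y - z) - ((1:ℝ) / 4) ^ (C.k i0 y) • (y - z) := by rw [sub_smul, one_smul]
    rw [h3] at hs
    have h4 : ((1:ℝ) / 4) ^ (C.k i0 y) • (y - z) =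
        (y - z) - ((3 / 4 : ℝ) • ∑ i ∈ Finset.range i0, C.g i y -
          (3 / 4 : ℝ) • ∑ i ∈ Finset.range i0, C.g i z) := by rw [hs]; abel
    rw [h4, ey, ez, smul_add, smul_add, h5]
    abel
  rw [key, norm_smul, Real.norm_of_nonneg (by norm_num)]
  have t1 := C.norm_tail i0 hy
  have t2 := C.norm_tail i0 hz
  rw [← hk] at t2
  have t3 := norm_sub_le (∑' i, C.g (i + i0) z) (∑' i, C.g (i + i0) y)
  have t4 : (1 / 4 : ℝ) ^ (C.k i0 y) * C.r i0 ≤ (1 / 4 : ℝ) ^ (C.k i0 y) * (‖y - z‖ / 8) :=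
    mul_le_mul_of_nonneg_left (by linarith) (by positivity)
  linarith

omit [NormedSpace ℝ E] in
theorem exists_threshold {y z : E} (hyz : y ≠ z) :
    ∃ i0, (∀ i < i0, ‖y - z‖ < 8 * C.r i) ∧ 8 * C.r i0 ≤ ‖y - z‖ := by
  classical
  have hpos : 0 < ‖y - z‖ := norm_pos_iff.2 (sub_ne_zero.2 hyz)
  have hex : ∃ i, 8 * C.r i ≤ ‖y - z‖ := by
    obtain ⟨i, hi⟩ := exists_pow_lt_of_lt_one (x := ‖y - z‖ / (8 * C.r 0)) (y := (1:ℝ) / 4)
      (div_pos hpos (by have := C.r_pos 0; positivity)) (by norm_num)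
    refine ⟨i, ?_⟩
    have h1 := C.r_add 0 i
    rw [zero_add] at h1
    have h2 : (1 / 4 : ℝ) ^ i * (8 * C.r 0) < ‖y - z‖ := by
      rwa [lt_div_iff₀ (by have := C.r_pos 0; positivity)] at hi
    linarith
  refine ⟨Nat.find hex, fun i hi => ?_, Nat.find_spec hex⟩
  exact not_le.1 (Nat.find_min hex hi)

theorem upper [CompleteSpace E] {i0 : ℕ} {y z : E} (hy : y ∈ F) (hz : z ∈ F)
    (hlt : ∀ i < i0, ‖y - z‖ < 8 * C.r i) (hge : 8 * C.r i0 ≤ ‖y - z‖) :
    ‖C.f y - C.f z‖ ≤ 5 / 4 * ((1 / 4) ^ (C.k i0 y) * ‖y - z‖) := by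
  have h := C.two_point hy hz hlt hge
  have h2 : ‖((1:ℝ) / 4) ^ (C.k i0 y) • (y - z)‖ = (1 / 4) ^ (C.k i0 y) * ‖y - z‖ := by
    rw [norm_smul, Real.norm_of_nonneg (by positivity)]
  have h3 := norm_sub_norm_le (C.f y - C.f z) (((1:ℝ) / 4) ^ (C.k i0 y) • (y - z))
  rw [h2] at h3
  linarith

theorem lower [CompleteSpace E] {i0 : ℕ} {y z : E} (hy : y ∈ F) (hz : z ∈ F)
    (hlt : ∀ i < i0, ‖y - z‖ < 8 * C.r i) (hge : 8 * C.r i0 ≤ ‖y - z‖) :
    3 / 4 * ((1 / 4) ^ (C.k i0 y) * ‖y - z‖) ≤ ‖C.f y - C.f z‖ := by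
  have h := C.two_point hy hz hlt hge
  have h2 : ‖((1:ℝ) / 4) ^ (C.k i0 y) • (y - z)‖ = (1 / 4) ^ (C.k i0 y) * ‖y - z‖ := by
    rw [norm_smul, Real.norm_of_nonneg (by positivity)]
  have h3 := norm_sub_norm_le (((1:ℝ) / 4) ^ (C.k i0 y) • (y - z)) (C.f y - C.f z)
  have h4 := norm_sub_rev (((1:ℝ) / 4) ^ (C.k i0 y) • (y - z)) (C.f y - C.f z)
  rw [h2, h4] at h3
  linarith

/-- Points lying in the same cells of many levels are contracted strongly. -/
theorem upper_of_common [CompleteSpace E] {y z : E} (hy : y ∈ F) (hz : z ∈ F) (S : Finset ℕ)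
    (hS : ∀ i ∈ S, C.ch i y ∧ C.ch i z ∧ C.ctr i z = C.ctr i y) :
    ‖C.f y - C.f z‖ ≤ 5 / 4 * ((1 / 4) ^ S.card * ‖y - z‖) := by
  classical
  by_cases hyz : y = z
  · subst hyz; simp
  obtain ⟨i0, hlt, hge⟩ := C.exists_threshold hyz
  refine (C.upper hy hz hlt hge).trans ?_
  have hcard : S.card ≤ C.k i0 y := by
    unfold k
    apply Finset.card_le_card
    intro i hi
    obtain ⟨h1, h2, h3⟩ := hS i hi
    rw [Finset.mem_filter, Finset.mem_range]
    refine ⟨?_, h1⟩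
    by_contra hcon
    push Not at hcon
    have h4 := C.near i y hy h1
    have h5 := C.near i z hz h2
    rw [h3] at h5
    have h6 : ‖y - z‖ ≤ 2 * C.r i := by
      have : y - z = (y - C.ctr i y) - (z - C.ctr i y) := by abel
      rw [this]
      refine (norm_sub_le _ _).trans ?_
      unfold r
      linarith
    have h7 := C.r_anti hcon
    have h8 := C.r_pos i
    linarith
  have h9 : ((1:ℝ) / 4) ^ (C.k i0 y) ≤ (1 / 4) ^ S.card :=
    pow_le_pow_of_le_one (by norm_num) (by norm_num) hcard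
  have h10 := mul_le_mul_of_nonneg_right h9 (norm_nonneg (y - z))
  linarith

theorem lipschitz [CompleteSpace E] {y z : E} (hy : y ∈ F) (hz : z ∈ F) :
    ‖C.f y - C.f z‖ ≤ 5 / 4 * ‖y - z‖ := by
  have := C.upper_of_common hy hz ∅ (by simp)
  simpa using this

theorem injOn [CompleteSpace E] : Set.InjOn C.f F := by
  intro y hy z hz h
  by_contra hyz
  obtain ⟨i0, hlt, hge⟩ := C.exists_threshold hyz
  have h1 := C.lower hy hz hlt hge
  rw [h, sub_self, norm_zero] at h1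
  have h2 : 0 < ‖y - z‖ := norm_pos_iff.2 (sub_ne_zero.2 hyz)
  have h3 : 0 < 3 / 4 * ((1 / 4 : ℝ) ^ (C.k i0 y) * ‖y - z‖) := by positivity
  linarith

/-- The quasisymmetry estimate. -/
theorem qs [CompleteSpace E] {x a b : E} (hx : x ∈ F) (ha : a ∈ F) (hb : b ∈ F) {t : ℝ}
    (ht : 0 < t) (h : ‖x - a‖ ≤ t * ‖x - b‖) :
    ‖C.f x - C.f a‖ ≤ 3 * (t + t ^ 2) * ‖C.f x - C.f b‖ := by
  have hrhs : 0 ≤ 3 * (t + t ^ 2) * ‖C.f x - C.f b‖ := by positivity
  by_cases hxa : x = a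
  · subst hxa; simpa using hrhs
  by_cases hxb : x = b
  · subst hxb
    rw [sub_self, norm_zero, mul_zero] at h
    exact absurd (sub_eq_zero.1 (norm_le_zero_iff.1 h)) hxa
  obtain ⟨i1, hlt1, hge1⟩ := C.exists_threshold hxa
  obtain ⟨i2, hlt2, hge2⟩ := C.exists_threshold hxb
  have h1 := C.upper hx ha hlt1 hge1
  have h2 := C.lower hx hb hlt2 hge2
  have hpb : 0 < ‖x - b‖ := norm_pos_iff.2 (sub_ne_zero.2 hxb)
  have hpa : 0 < ‖x - a‖ := norm_pos_iff.2 (sub_ne_zero.2 hxa)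
  rcases le_or_gt (C.k i2 x) (C.k i1 x) with hm | hm
  · -- first case
    have h3 : ((1:ℝ) / 4) ^ (C.k i1 x) ≤ (1 / 4) ^ (C.k i2 x) :=
      pow_le_pow_of_le_one (by norm_num) (by norm_num) hm
    have h4 : (1 / 4 : ℝ) ^ (C.k i1 x) * ‖x - a‖ ≤ (1 / 4) ^ (C.k i2 x) * (t * ‖x - b‖) :=
      mul_le_mul h3 h (norm_nonneg _) (by positivity)
    have h5 : (1 / 4 : ℝ) ^ (C.k i2 x) * (t * ‖x - b‖) ≤ t * (4 / 3 * ‖C.f x - C.f b‖) := by
      have : (1 / 4 : ℝ) ^ (C.k i2 x) * (t * ‖x - b‖) =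
          t * ((1 / 4 : ℝ) ^ (C.k i2 x) * ‖x - b‖) := by ring
      rw [this]
      apply mul_le_mul_of_nonneg_left _ ht.le
      linarith
    have h6 : 0 ≤ t ^ 2 * ‖C.f x - C.f b‖ := by positivity
    have h7 : 0 ≤ t * ‖C.f x - C.f b‖ := by positivity
    nlinarith
  · -- second case
    obtain ⟨h', hh'⟩ : ∃ h', C.k i2 x = C.k i1 x + h' + 1 := ⟨C.k i2 x - C.k i1 x - 1, by omega⟩
    obtain ⟨j, hj, hjx, hjk⟩ := C.exists_last hh'
    have hj1 : i1 ≤ j := by
      by_contra hcon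
      push Not at hcon
      have h8 := C.k_mono (Nat.succ_le_of_lt hcon) x
      have h9 : C.k (j + 1) x = C.k j x + 1 := by
        classical
        rw [k_succ, if_pos hjx]
      rw [Nat.succ_eq_add_one, h9, hjk] at h8
      omega
    obtain ⟨l, rfl⟩ := Nat.exists_eq_add_of_le hj1
    have hl : h' ≤ l := by
      have := C.k_add_le i1 l x
      omega
    -- distance from x to b
    have hxb2 : ‖x - b‖ ≤ 2 * C.r (i1 + l) := by
      rcases C.sep _ x hx b hb hjx with ⟨h10, h11⟩ | h10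
      · have h4 := C.near _ x hx hjx
        have h5 := C.near _ b hb h10
        rw [h11] at h5
        have : x - b = (x - C.ctr (i1 + l) x) - (b - C.ctr (i1 + l) x) := by abel
        rw [this]
        refine (norm_sub_le _ _).trans ?_
        unfold r
        linarith
      · exact absurd h10 (not_le.2 (hlt2 _ hj))
    have hr := C.r_add i1 l
    have hq : ((1:ℝ) / 4) ^ l ≤ (1 / 4) ^ h' := pow_le_pow_of_le_one (by norm_num) (by norm_num) hl
    have hr2 : C.r (i1 + l) ≤ C.r i1 * (1 / 4) ^ h' :=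
      hr.trans (mul_le_mul_of_nonneg_left hq (C.r_pos _).le)
    -- t is large
    have hprod : ((1:ℝ) / 4) ^ h' * 4 ^ h' = 1 := by
      rw [← mul_pow]; norm_num
    have ht4 : (4:ℝ) ^ (h' + 1) ≤ t := by
      have e1 : (4:ℝ) ^ (h' + 1) * ‖x - b‖ ≤ t * ‖x - b‖ := by
        calc (4:ℝ) ^ (h' + 1) * ‖x - b‖ ≤ (4:ℝ) ^ (h' + 1) * (2 * (C.r i1 * (1 / 4) ^ h')) := by
              apply mul_le_mul_of_nonneg_left _ (by positivity)
              linarith
          _ = 8 * C.r i1 * ((1 / 4) ^ h' * 4 ^ h') := by rw [pow_succ]; ring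
          _ = 8 * C.r i1 := by rw [hprod, mul_one]
          _ ≤ ‖x - a‖ := hge1
          _ ≤ t * ‖x - b‖ := h
      exact le_of_mul_le_mul_right e1 hpb
    have e2 : ((1:ℝ) / 4) ^ (C.k i1 x) = (1 / 4) ^ (C.k i2 x) * 4 ^ (h' + 1) := by
      rw [hh', pow_add, pow_add]
      have : ((1:ℝ) / 4) ^ h' * (1 / 4) ^ 1 * 4 ^ (h' + 1) = 1 := by
        rw [← pow_add, ← mul_pow]; norm_num
      calc ((1:ℝ) / 4) ^ (C.k i1 x) = (1 / 4) ^ (C.k i1 x) *
            (((1:ℝ) / 4) ^ h' * (1 / 4) ^ 1 * 4 ^ (h' + 1)) := by rw [this, mul_one]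
        _ = _ := by ring
    have e3 : (1 / 4 : ℝ) ^ (C.k i1 x) * ‖x - a‖ ≤
        t * t * ((1 / 4 : ℝ) ^ (C.k i2 x) * ‖x - b‖) := by
      calc (1 / 4 : ℝ) ^ (C.k i1 x) * ‖x - a‖ ≤
            ((1 / 4) ^ (C.k i2 x) * 4 ^ (h' + 1)) * (t * ‖x - b‖) := by
              rw [e2]
              exact mul_le_mul_of_nonneg_left h (by positivity)
        _ ≤ ((1 / 4) ^ (C.k i2 x) * t) * (t * ‖x - b‖) := by
              apply mul_le_mul_of_nonneg_right _ (by positivity)
              exact mul_le_mul_of_nonneg_left ht4 (by positivity)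
        _ = _ := by ring
    have e4 : t * t * ((1 / 4 : ℝ) ^ (C.k i2 x) * ‖x - b‖) ≤
        t * t * (4 / 3 * ‖C.f x - C.f b‖) := by
      apply mul_le_mul_of_nonneg_left _ (by positivity)
      linarith
    have h6 : 0 ≤ t * t * ‖C.f x - C.f b‖ := by positivity
    have h7 : 0 ≤ t * ‖C.f x - C.f b‖ := by positivity
    nlinarith

end Cells

end Pool.Agent.H36.Perc
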