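import Pool.Agent.H36.Perc.Upper
import Pool.Agent.H36.Perc.QS

open MeasureTheory ProbabilityTheory Set Filter Metric
open scoped ENNReal NNReal Topology

namespace Pool.Agent.H36.Perc

variable {d n : ℕ}

/-- The coordinates of the lower corner of the cube with address `w`. -/
noncomputable def corner : List (Fin d → Fin n) → Fin d → ℝ
  | [], _ => 0
  | a :: w, i => (((a i : ℕ) : ℝ) + corner w i) / n

/-- The closed cube of side `n ^ (-k)` with address `w` of length `k`. -/
def cube (w : List (Fin d → Fin n)) : Set (EuclideanSpace ℝ (Fin d)) :=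
  {y | ∀ i, corner w i ≤ y i ∧ y i ≤ corner w i + 1 / (n : ℝ) ^ w.length}

@[simp] theorem corner_nil (i : Fin d) : corner ([] : List (Fin d → Fin n)) i = 0 := rfl

@[simp] theorem corner_cons (a : Fin d → Fin n) (w : List (Fin d → Fin n)) (i : Fin d) :
    corner (a :: w) i = (((a i : ℕ) : ℝ) + corner w i) / n := rfl

theorem corner_append (hn : 0 < n) (u v : List (Fin d → Fin n)) (i : Fin d) :
    corner (u ++ v) i = corner u i + corner v i / (n : ℝ) ^ u.length := by
  have hn' : (n : ℝ) ≠ 0 := by exact_mod_cast hn.ne'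
  induction u with
  | nil => simp
  | cons a u ih =>
    rw [List.cons_append, corner_cons, corner_cons, ih, List.length_cons, pow_succ]
    field_simp
    ring

theorem corner_nonneg (w : List (Fin d → Fin n)) (i : Fin d) : 0 ≤ corner w i := by
  induction w with
  | nil => simp
  | cons a w ih => rw [corner_cons]; positivity

theorem corner_le (hn : 0 < n) (w : List (Fin d → Fin n)) (i : Fin d) :
    corner w i + 1 / (n : ℝ) ^ w.length ≤ 1 := by
  have hn' : (0 : ℝ) < n := by exact_mod_cast hn
  induction w with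
  | nil => simp
  | cons a w ih =>
    rw [corner_cons, List.length_cons, pow_succ]
    have h1 : ((a i : ℕ) : ℝ) + 1 ≤ n := by exact_mod_cast (a i).2
    have h2 : (((a i : ℕ) : ℝ) + corner w i) / n + 1 / ((n : ℝ) ^ w.length * n) =
        (((a i : ℕ) : ℝ) + (corner w i + 1 / (n : ℝ) ^ w.length)) / n := by
      field_simp
      ring
    rw [h2, div_le_one hn']
    linarith

theorem cube_append_subset (hn : 0 < n) (u v : List (Fin d → Fin n)) : cube (u ++ v) ⊆ cube u := by
  intro y hy i
  have hn' : (0 : ℝ) < n := by exact_mod_cast hn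
  obtain ⟨h1, h2⟩ := hy i
  rw [corner_append hn] at h1 h2
  have h3 := corner_nonneg v i
  have h4 := corner_le hn v i
  have hp : (0:ℝ) < (n : ℝ) ^ u.length := by positivity
  constructor
  · have : 0 ≤ corner v i / (n : ℝ) ^ u.length := by positivity
    linarith
  · rw [List.length_append, pow_add] at h2
    have h5 : corner v i / (n : ℝ) ^ u.length + 1 / ((n : ℝ) ^ u.length * (n : ℝ) ^ v.length) =
        (corner v i + 1 / (n : ℝ) ^ v.length) / (n : ℝ) ^ u.length := by
      field_simp
    have h6 : (corner v i + 1 / (n : ℝ) ^ v.length) / (n : ℝ) ^ u.length ≤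
        1 / (n : ℝ) ^ u.length := by gcongr
    linarith

/-- The integer coordinates of the corner. -/
def idx : List (Fin d → Fin n) → Fin d → ℕ
  | [], _ => 0
  | a :: w, i => (a i : ℕ) * n ^ w.length + idx w i

theorem idx_lt (w : List (Fin d → Fin n)) (i : Fin d) : idx w i < n ^ w.length := by
  induction w with
  | nil => simp [idx]
  | cons a w ih =>
    rw [idx, List.length_cons, pow_succ]
    have h1 : (a i : ℕ) + 1 ≤ n := (a i).2
    calc (a i : ℕ) * n ^ w.length + idx w i < (a i : ℕ) * n ^ w.length + n ^ w.length := by omega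
      _ = ((a i : ℕ) + 1) * n ^ w.length := by ring
      _ ≤ n * n ^ w.length := Nat.mul_le_mul_right _ h1
      _ = _ := mul_comm _ _

theorem corner_eq (hn : 0 < n) (w : List (Fin d → Fin n)) (i : Fin d) :
    corner w i = (idx w i : ℝ) / (n : ℝ) ^ w.length := by
  have hn' : (n : ℝ) ≠ 0 := by exact_mod_cast hn.ne'
  induction w with
  | nil => simp [idx]
  | cons a w ih =>
    rw [corner_cons, ih, idx, List.length_cons, pow_succ]
    push_cast
    field_simp

theorem idx_inj {w w' : List (Fin d → Fin n)} (hlen : w.length = w'.length)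
    (h : ∀ i, idx w i = idx w' i) : w = w' := by
  induction w generalizing w' with
  | nil =>
    rw [List.length_nil] at hlen
    exact (List.length_eq_zero_iff.1 hlen.symm).symm
  | cons a w ih =>
    cases w' with
    | nil => simp at hlen
    | cons a' w' =>
      rw [List.length_cons, List.length_cons, Nat.add_right_cancel_iff] at hlen
      have h1 : ∀ i, (a i : ℕ) = a' i ∧ idx w i = idx w' i := by
        intro i
        have h2 := h i
        rw [idx, idx, ← hlen] at h2
        have h3 := idx_lt w i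
        have h4 := idx_lt w' i
        rw [← hlen] at h4
        have hp : 0 < n ^ w.length := lt_of_le_of_lt (Nat.zero_le _) h3
        have h5 : (a i : ℕ) = a' i := by
          have e1 : ((a i : ℕ) * n ^ w.length + idx w i) / n ^ w.length = a i := by
            rw [Nat.mul_comm, Nat.mul_add_div hp, Nat.div_eq_of_lt h3, add_zero]
          have e2 : ((a' i : ℕ) * n ^ w.length + idx w' i) / n ^ w.length = a' i := by
            rw [Nat.mul_comm, Nat.mul_add_div hp, Nat.div_eq_of_lt h4, add_zero]
          rw [← e1, h2, e2]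
        refine ⟨h5, ?_⟩
        rw [h5] at h2
        exact Nat.add_left_cancel h2
      rw [ih hlen (fun i => (h1 i).2)]
      congr 1
      funext i
      exact Fin.ext (h1 i).1

/-- The isolation property of central cells. -/
theorem isolation (hn : 0 < n) {c : List (Fin d → Fin n)} {e : ℝ}
    (hc1 : ∀ i, e ≤ corner c i) (hc2 : ∀ i, corner c i + 1 / (n : ℝ) ^ c.length ≤ 1 - e)
    {u u' : List (Fin d → Fin n)} (hlen : u.length = u'.length) (hne : u ≠ u')
    {y z : EuclideanSpace ℝ (Fin d)} (hy : y ∈ cube (u ++ c)) (hz : z ∈ cube u') :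
    e / (n : ℝ) ^ u.length ≤ ‖y - z‖ := by
  have hn' : (0 : ℝ) < n := by exact_mod_cast hn
  obtain ⟨i, hi⟩ : ∃ i, idx u i ≠ idx u' i := by
    by_contra hcon
    push Not at hcon
    exact hne (idx_inj hlen hcon)
  have hnorm : |y i - z i| ≤ ‖y - z‖ := by
    have := PiLp.norm_apply_le (y - z) i
    rwa [PiLp.sub_apply, Real.norm_eq_abs] at this
  refine le_trans ?_ hnorm
  obtain ⟨h1, h2⟩ := hy i
  obtain ⟨h3, h4⟩ := hz i
  rw [corner_append hn] at h1 h2
  rw [corner_eq hn u'] at h3 h4
  rw [corner_eq hn u] at h1 h2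
  rw [← hlen] at h3 h4
  rw [List.length_append, pow_add] at h2
  have hp : (0:ℝ) < (n : ℝ) ^ u.length := by positivity
  have h5 : corner c i / (n : ℝ) ^ u.length + 1 / ((n : ℝ) ^ u.length * (n : ℝ) ^ c.length) =
        (corner c i + 1 / (n : ℝ) ^ c.length) / (n : ℝ) ^ u.length := by
      field_simp
  have h6 : (corner c i + 1 / (n : ℝ) ^ c.length) / (n : ℝ) ^ u.length ≤
      (1 - e) / (n : ℝ) ^ u.length := by
    have := hc2 i
    gcongr
  have h7 : e / (n : ℝ) ^ u.length ≤ corner c i / (n : ℝ) ^ u.length := by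
    have := hc1 i
    gcongr
  have h8 : (1 - e) / (n : ℝ) ^ u.length = 1 / (n : ℝ) ^ u.length - e / (n : ℝ) ^ u.length := by
    rw [sub_div]
  rcases lt_or_gt_of_ne hi with hlt | hgt
  · have h9 : (idx u i : ℝ) / (n : ℝ) ^ u.length + 1 / (n : ℝ) ^ u.length ≤
        (idx u' i : ℝ) / (n : ℝ) ^ u.length := by
      rw [← add_div]
      have : (idx u i : ℝ) + 1 ≤ idx u' i := by exact_mod_cast hlt
      gcongr
    rw [abs_sub_comm]
    refine le_trans ?_ (le_abs_self _)
    linarith
  · have h9 : (idx u' i : ℝ) / (n : ℝ) ^ u.length + 1 / (n : ℝ) ^ u.length ≤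
        (idx u i : ℝ) / (n : ℝ) ^ u.length := by
      rw [← add_div]
      have : (idx u' i : ℝ) + 1 ≤ idx u i := by exact_mod_cast hgt
      gcongr
    refine le_trans ?_ (le_abs_self _)
    linarith

/-- Two points of a cube are close. -/
theorem norm_le_of_coord {v : EuclideanSpace ℝ (Fin d)} {t : ℝ} (ht : 0 ≤ t)
    (h : ∀ i, |v i| ≤ t) : ‖v‖ ≤ d * t := by
  rw [EuclideanSpace.norm_eq]
  apply Real.sqrt_le_iff.2
  refine ⟨by positivity, ?_⟩
  have h1 : ∑ i, ‖v i‖ ^ 2 ≤ ∑ _i : Fin d, t ^ 2 := by
    apply Finset.sum_le_sum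
    intro i _
    rw [Real.norm_eq_abs]
    exact pow_le_pow_left₀ (abs_nonneg _) (h i) 2
  refine h1.trans ?_
  rw [Finset.sum_const, Finset.card_univ, Fintype.card_fin, nsmul_eq_mul, mul_pow]
  apply mul_le_mul_of_nonneg_right _ (by positivity)
  rcases Nat.eq_zero_or_pos d with h0 | h0
  · subst h0; simp
  · have : (1:ℝ) ≤ d := by exact_mod_cast h0
    nlinarith

theorem norm_cube_le {w : List (Fin d → Fin n)} {y z : EuclideanSpace ℝ (Fin d)}
    (hy : y ∈ cube w) (hz : z ∈ cube w) : ‖y - z‖ ≤ d * (1 / (n : ℝ) ^ w.length) := by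
  apply norm_le_of_coord (by positivity)
  intro i
  rw [PiLp.sub_apply, abs_le]
  obtain ⟨h1, h2⟩ := hy i
  obtain ⟨h3, h4⟩ := hz i
  constructor <;> linarith

/-- The lower corner as a point. -/
noncomputable def cpt (w : List (Fin d → Fin n)) : EuclideanSpace ℝ (Fin d) :=
  WithLp.toLp 2 (corner w)

theorem cpt_mem (w : List (Fin d → Fin n)) : cpt w ∈ cube w := by
  intro i
  have : cpt w i = corner w i := rfl
  rw [this]
  refine ⟨le_rfl, ?_⟩
  have : 0 ≤ 1 / (n : ℝ) ^ w.length := by positivity
  linarith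

theorem isClosed_cube (w : List (Fin d → Fin n)) : IsClosed (cube w) := by
  have : cube w = ⋂ i, {y : EuclideanSpace ℝ (Fin d) |
      corner w i ≤ y i ∧ y i ≤ corner w i + 1 / (n : ℝ) ^ w.length} := by
    ext y; simp [cube]
  rw [this]
  apply isClosed_iInter
  intro i
  have hc : Continuous fun y : EuclideanSpace ℝ (Fin d) => y i := by fun_prop
  exact (isClosed_le continuous_const hc).inter (isClosed_le hc continuous_const)

theorem isCompact_cube (w : List (Fin d → Fin n)) : IsCompact (cube w) := by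
  apply Metric.isCompact_of_isClosed_isBounded (isClosed_cube w)
  rw [Metric.isBounded_iff]
  exact ⟨_, fun y hy z hz => by rw [dist_eq_norm]; exact norm_cube_le hy hz⟩

/-- The limit set of the percolation. -/
def lim (x : List (Fin d → Fin n) → (Fin d → Fin n) → Bool) : Set (EuclideanSpace ℝ (Fin d)) :=
  {y | ∀ k, ∃ w, w.length = k ∧ kept x w ∧ y ∈ cube w}

/-- The union of the kept cubes of level `k`. -/
def lvl (x : List (Fin d → Fin n) → (Fin d → Fin n) → Bool) (k : ℕ) :
    Set (EuclideanSpace ℝ (Fin d)) :=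
  ⋃ w ∈ words (Fin d → Fin n) k, {y | kept x w ∧ y ∈ cube w}

theorem lim_eq (x : List (Fin d → Fin n) → (Fin d → Fin n) → Bool) : lim x = ⋂ k, lvl x k := by
  ext y
  simp only [lim, lvl, mem_iInter, mem_iUnion, exists_prop, mem_words, mem_ofPred_eq]

theorem isCompact_lvl (x : List (Fin d → Fin n) → (Fin d → Fin n) → Bool) (k : ℕ) :
    IsCompact (lvl x k) := by
  unfold lvl
  apply Finset.isCompact_biUnion
  intro w _
  by_cases h : kept x w
  · simpa [h] using isCompact_cube w
  · simp [h]

theorem isCompact_lim (x : List (Fin d → Fin n) → (Fin d → Fin n) → Bool) :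
    IsCompact (lim x) := by
  rw [lim_eq]
  exact (isCompact_lvl x 0).of_isClosed_subset
    (isClosed_iInter fun k => (isCompact_lvl x k).isClosed) (iInter_subset _ 0)

theorem lvl_anti (hn : 0 < n) (x : List (Fin d → Fin n) → (Fin d → Fin n) → Bool) (k : ℕ) :
    lvl x (k + 1) ⊆ lvl x k := by
  intro y hy
  simp only [lvl, mem_iUnion, exists_prop] at hy ⊢
  obtain ⟨w, hw, hk, hy⟩ := hy
  rw [mem_words] at hw
  have e := List.take_append_drop k w
  refine ⟨w.take k, mem_words.2 (by simp [hw]), ?_, ?_⟩
  · rw [← e, kept_append] at hk; exact hk.1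
  · rw [← e] at hy; exact cube_append_subset hn _ _ hy

/-- If the tree survives then the limit set is not empty. -/
theorem lim_nonempty (hn : 0 < n) {x : List (Fin d → Fin n) → (Fin d → Fin n) → Bool}
    (h : surv x) : (lim x).Nonempty := by
  rw [lim_eq]
  apply IsCompact.nonempty_iInter_of_sequence_nonempty_isCompact_isClosed
  · exact lvl_anti hn x
  · intro k
    obtain ⟨w, hw, hk⟩ := h k
    refine ⟨cpt w, ?_⟩
    simp only [lvl, mem_iUnion, exists_prop]
    exact ⟨w, hw, hk, cpt_mem w⟩
  · exact isCompact_lvl x 0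
  · exact fun k => (isCompact_lvl x k).isClosed

theorem surv_of_nonempty {x : List (Fin d → Fin n) → (Fin d → Fin n) → Bool}
    (h : (lim x).Nonempty) : surv x := by
  obtain ⟨y, hy⟩ := h
  intro k
  obtain ⟨w, hw, hk, _⟩ := hy k
  exact ⟨w, mem_words.2 hw, hk⟩

end Pool.Agent.H36.Perc
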