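import Pool.Agent.H36.Perc.ZeroOne

open MeasureTheory ProbabilityTheory Set Filter
open scoped ENNReal NNReal Topology

namespace Pool.Agent.H36.Perc

variable {A : Type*} [Fintype A]

theorem card_mul_ne_top (ν : Measure Bool) [IsProbabilityMeasure ν] :
    (Fintype.card A * ν {true} : ℝ≥0∞) ≠ ∞ :=
  ENNReal.mul_ne_top (ENNReal.natCast_ne_top _) (measure_ne_top _ _)

theorem second_moment_bound (ν : Measure Bool) [IsProbabilityMeasure ν]
    (hm : (1 : ℝ≥0∞) < Fintype.card A * ν {true}) :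
    ∃ V : ℝ≥0, 0 < V ∧ ∀ k, ∫⁻ x, Z k x * Z k x ∂perc A ν ≤
      V * (Fintype.card A * ν {true}) ^ (2 * k) := by
  obtain ⟨m, hme⟩ : ∃ m : ℝ≥0, (m : ℝ≥0∞) = Fintype.card A * ν {true} :=
    ⟨_, ENNReal.coe_toNNReal (card_mul_ne_top ν)⟩
  have hm1 : 1 < m := by rw [← hme] at hm; exact_mod_cast hm
  -- the constant
  obtain ⟨V, hV1, hV⟩ : ∃ V : ℝ≥0, 1 ≤ V ∧ m * V + m ^ 2 ≤ V * m ^ 2 := by
    have hmr : (1:ℝ) < (m : ℝ) := by exact_mod_cast hm1
    obtain ⟨V, hV⟩ : ∃ V : ℝ≥0, (V : ℝ) = (m:ℝ) / (m - 1) :=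
      CanLift.prf ((m:ℝ) / (m - 1)) (div_nonneg (by linarith) (by linarith))
    refine ⟨V, ?_, ?_⟩
    · rw [← NNReal.coe_le_coe, hV, NNReal.coe_one]
      rw [le_div_iff₀ (by linarith)]
      linarith
    · rw [← NNReal.coe_le_coe]
      push_cast
      rw [hV]
      apply le_of_eq
      have : (m:ℝ) - 1 ≠ 0 := by linarith
      field_simp
      ring
  refine ⟨V, lt_of_lt_of_le one_pos hV1, fun k => ?_⟩
  induction k with
  | zero =>
    have : ∀ x : List A → A → Bool, Z 0 x = 1 := by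
      intro x
      simp only [Z, words, Finset.sum_singleton]
      rw [indicator_of_mem]
      · rfl
      · exact trivial
    simp only [this, mul_one, lintegral_const, measure_univ, mul_zero, pow_zero]
    exact_mod_cast hV1
  | succ k ih =>
    refine (lintegral_Z_sq_succ ν k).trans ?_
    rw [← hme] at ih ⊢
    calc (m : ℝ≥0∞) * ∫⁻ x, Z k x * Z k x ∂perc A ν + (m : ℝ≥0∞) ^ (2 * (k + 1))
        ≤ (m : ℝ≥0∞) * (V * (m : ℝ≥0∞) ^ (2 * k)) + (m : ℝ≥0∞) ^ (2 * (k + 1)) := by gcongr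
      _ = ((m * V + m ^ 2 : ℝ≥0) : ℝ≥0∞) * (m : ℝ≥0∞) ^ (2 * k) := by
          push_cast; ring
      _ ≤ ((V * m ^ 2 : ℝ≥0) : ℝ≥0∞) * (m : ℝ≥0∞) ^ (2 * k) := by gcongr
      _ = _ := by push_cast; ring

/-- A family of random variables with first moment at least `c m^k` and second moment at most
`V m^(2k)` exceeds `(c/2) m^k` with probability bounded below. -/
theorem scaled_second_moment (ν : Measure Bool) [IsProbabilityMeasure ν]
    (hm : (1 : ℝ≥0∞) < Fintype.card A * ν {true}) {c V : ℝ≥0} (hc : 0 < c) (hV : 0 < V)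
    {Y : (List A → A → Bool) → ℝ≥0∞} (hY : Measurable Y) (k : ℕ)
    (h1 : (c : ℝ≥0∞) * (Fintype.card A * ν {true}) ^ k ≤ ∫⁻ x, Y x ∂perc A ν)
    (h2 : ∫⁻ x, Y x * Y x ∂perc A ν ≤ V * (Fintype.card A * ν {true}) ^ (2 * k)) :
    ((c * c / (16 * V) : ℝ≥0) : ℝ≥0∞) ≤
      perc A ν {x | ((c / 2 : ℝ≥0) : ℝ≥0∞) * (Fintype.card A * ν {true}) ^ k ≤ Y x} := by
  set m : ℝ≥0∞ := Fintype.card A * ν {true} with hmdef
  have hm0 : m ^ k ≠ 0 := pow_ne_zero _ (zero_lt_one.trans hm).ne'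
  have hmt : m ^ k ≠ ∞ := ENNReal.pow_ne_top (card_mul_ne_top ν)
  have key := second_moment (perc A ν) (Y := fun x => Y x * (m ^ k)⁻¹)
    (hY.mul_const _) hc hV ?_ ?_
  · refine key.trans (measure_mono ?_)
    intro x hx
    simp only [mem_ofPred_eq] at hx ⊢
    calc ((c / 2 : ℝ≥0) : ℝ≥0∞) * m ^ k ≤ (Y x * (m ^ k)⁻¹) * m ^ k := by gcongr
      _ = Y x := by rw [mul_assoc, ENNReal.inv_mul_cancel hm0 hmt, mul_one]
  · rw [lintegral_mul_const _ hY]
    calc (c : ℝ≥0∞) = (c * m ^ k) * (m ^ k)⁻¹ := by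
          rw [mul_assoc, ENNReal.mul_inv_cancel hm0 hmt, mul_one]
      _ ≤ _ := by gcongr
  · have : ∀ x, Y x * (m ^ k)⁻¹ * (Y x * (m ^ k)⁻¹) = (Y x * Y x) * ((m ^ k)⁻¹ * (m ^ k)⁻¹) := by
      intro x; ring
    simp only [this]
    have hYY : Measurable fun x => Y x * Y x := hY.mul hY
    rw [lintegral_mul_const _ hYY]
    calc (∫⁻ x, Y x * Y x ∂perc A ν) * ((m ^ k)⁻¹ * (m ^ k)⁻¹)
        ≤ (V * m ^ (2 * k)) * ((m ^ k)⁻¹ * (m ^ k)⁻¹) := by gcongr
      _ = V * ((m ^ k * (m ^ k)⁻¹) * (m ^ k * (m ^ k)⁻¹)) := by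
          rw [two_mul, pow_add]; ring
      _ = V := by rw [ENNReal.mul_inv_cancel hm0 hmt]; simp

/-- The survival probability is positive. -/
theorem surv_pos (ν : Measure Bool) [IsProbabilityMeasure ν]
    (hm : (1 : ℝ≥0∞) < Fintype.card A * ν {true}) : 0 < perc A ν {x | surv x} := by
  obtain ⟨V, hV, hV2⟩ := second_moment_bound (A := A) ν hm
  have h1 : ∀ k, (((1:ℝ≥0) * 1 / (16 * V) : ℝ≥0) : ℝ≥0∞) ≤ perc A ν {x | alive k x} := by
    intro k
    refine (scaled_second_moment ν hm one_pos hV (measurable_Z k) k ?_ (hV2 k)).trans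
      (measure_mono ?_)
    · rw [lintegral_Z]; simp
    · intro x hx
      simp only [mem_ofPred_eq] at hx ⊢
      by_contra hcon
      have h0 : Z k x = 0 := by
        unfold Z
        apply Finset.sum_eq_zero
        intro w hw
        rw [indicator_of_notMem]
        intro hk
        exact hcon ⟨w, hw, hk⟩
      rw [h0, nonpos_iff_eq_zero, mul_eq_zero] at hx
      rcases hx with h | h
      · simp at h
      · exact pow_ne_zero k (zero_lt_one.trans hm).ne' h
  have hset : {x : List A → A → Bool | surv x} = ⋂ k, {x | alive k x} := by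
    ext x; simp [surv]
  rw [hset]
  have htend := tendsto_measure_iInter_atTop (μ := perc A ν)
    (s := fun k => {x : List A → A → Bool | alive k x})
    (fun k => (measurableSet_alive k).nullMeasurableSet)
    (fun k l hkl x hx => alive_anti hkl hx) ⟨0, measure_ne_top _ _⟩
  have := ge_of_tendsto' htend h1
  refine lt_of_lt_of_le ?_ this
  rw [ENNReal.coe_pos]
  positivity

/-- Almost surely on survival, the number of surviving words of length `k` is at least
a constant times `m^k` for infinitely many `k`. -/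
theorem growth (ν : Measure Bool) [IsProbabilityMeasure ν] (hA : 2 ≤ Fintype.card A)
    (hm : (1 : ℝ≥0∞) < Fintype.card A * ν {true}) :
    ∀ᵐ x ∂perc A ν, surv x → ∃ j : ℕ, ∃ᶠ k in atTop,
      (Fintype.card A * ν {true}) ^ k ≤ (j + 1 : ℝ≥0∞) * Z' k x := by
  set m : ℝ≥0∞ := Fintype.card A * ν {true} with hmdef
  set E : Set (List A → A → Bool) :=
    {x | ¬ ∃ j : ℕ, ∃ᶠ k in atTop, m ^ k ≤ (j + 1 : ℝ≥0∞) * Z' k x} with hE
  have hBm : ∀ j k : ℕ, MeasurableSet
      {x : List A → A → Bool | m ^ k ≤ (j + 1 : ℝ≥0∞) * Z' k x} := fun j k =>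
    measurableSet_le measurable_const ((measurable_Z' k).const_mul _)
  have hfreq : ∀ j : ℕ, {x : List A → A → Bool | ∃ᶠ k in atTop, m ^ k ≤ (j + 1 : ℝ≥0∞) * Z' k x} =
      ⋂ N, ⋃ k, {x | N ≤ k ∧ m ^ k ≤ (j + 1 : ℝ≥0∞) * Z' k x} := by
    intro j
    ext x
    simp only [mem_ofPred_eq, frequently_atTop, mem_iInter, mem_iUnion]
  have hfm : ∀ j : ℕ, MeasurableSet
      {x : List A → A → Bool | ∃ᶠ k in atTop, m ^ k ≤ (j + 1 : ℝ≥0∞) * Z' k x} := by
    intro j
    rw [hfreq]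
    refine MeasurableSet.iInter fun N => MeasurableSet.iUnion fun k => ?_
    by_cases hNk : N ≤ k
    · simp only [hNk, true_and]; exact hBm j k
    · simp [hNk]
  have hEm : MeasurableSet E := by
    have : E = (⋃ j : ℕ, {x | ∃ᶠ k in atTop, m ^ k ≤ (j + 1 : ℝ≥0∞) * Z' k x})ᶜ := by
      ext x; simp [hE]
    rw [this]
    exact (MeasurableSet.iUnion hfm).compl
  have hνpos : 0 < ν {true} := by
    by_contra h
    have h0 : ν {true} = 0 := by simpa using h
    rw [hmdef, h0, mul_zero] at hm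
    simp at hm
  have key := zero_one ν hA hνpos hEm ?_ ?_ ?_
  · filter_upwards [key] with x hx hs
    have := hx hs
    rw [hE, mem_ofPred_eq, not_not] at this
    exact this
  · -- extinction is contained in E
    intro x hx
    rw [hE]
    simp only [mem_ofPred_eq] at hx ⊢
    rintro ⟨j, hj⟩
    -- Z' vanishes
    obtain ⟨k, hk⟩ := hj.exists
    have h0 : Z' k x = 0 := by
      unfold Z'
      apply Finset.sum_eq_zero
      intro w hw
      rw [indicator_of_notMem]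
      rintro ⟨h1, h2⟩
      apply hx
      intro l
      -- a kept surviving word gives kept words of every length
      obtain ⟨v, hv, hvk⟩ := h2 l
      refine alive_anti (k := l) (l := w.length + l) (by omega) ⟨w ++ v, ?_, ?_⟩
      · rw [mem_words] at hv ⊢; simp [hv]
      · rw [kept_append]; exact ⟨h1, hvk⟩
    rw [h0, mul_zero, nonpos_iff_eq_zero] at hk
    exact pow_ne_zero k (zero_lt_one.trans hm).ne' hk
  · -- heredity
    intro x hx a ha
    rw [hE] at hx ⊢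
    simp only [mem_ofPred_eq] at hx ⊢
    rintro ⟨j, hj⟩
    apply hx
    obtain ⟨M, hM⟩ : ∃ M : ℕ, m ≤ M := by
      obtain ⟨M, hM⟩ := exists_nat_gt m.toNNReal
      refine ⟨M, ?_⟩
      have h5 : ((m.toNNReal : ℝ≥0) : ℝ≥0∞) = m := ENNReal.coe_toNNReal (card_mul_ne_top (A := A) ν)
      rw [← h5]
      exact_mod_cast hM.le
    refine ⟨M * (j + 1), ?_⟩
    rw [frequently_atTop] at hj ⊢
    intro N
    obtain ⟨k, hNk, hk⟩ := hj N
    refine ⟨k + 1, by omega, ?_⟩
    calc m ^ (k + 1) = m * m ^ k := by rw [pow_succ, mul_comm]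
      _ ≤ (M : ℝ≥0∞) * ((j + 1 : ℝ≥0∞) * Z' k (sub x [a])) := by gcongr
      _ ≤ (M : ℝ≥0∞) * ((j + 1 : ℝ≥0∞) * Z' (k + 1) x) := by
          gcongr; exact Z'_succ_ge k x ha
      _ = ((M * (j + 1) : ℕ) : ℝ≥0∞) * Z' (k + 1) x := by push_cast; ring
      _ ≤ _ := by gcongr; exact le_self_add
  · -- positive probability of the complement
    obtain ⟨V, hV, hV2⟩ := second_moment_bound (A := A) ν hm
    have hs := surv_pos (A := A) ν hm
    obtain ⟨c, hc⟩ : ∃ c : ℝ≥0, (c : ℝ≥0∞) = perc A ν {x | surv x} :=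
      ⟨_, ENNReal.coe_toNNReal (measure_ne_top _ _)⟩
    have hc0 : 0 < c := by rw [← hc] at hs; exact_mod_cast hs
    have h1 : ∀ k, ((c * c / (16 * V) : ℝ≥0) : ℝ≥0∞) ≤
        perc A ν {x | ((c / 2 : ℝ≥0) : ℝ≥0∞) * m ^ k ≤ Z' k x} := by
      intro k
      apply scaled_second_moment ν hm hc0 hV (measurable_Z' k) k
      · rw [lintegral_Z', hc, mul_comm]
      · refine le_trans (lintegral_mono fun x => ?_) (hV2 k)
        exact mul_le_mul' (Z'_le k x) (Z'_le k x)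
    obtain ⟨j, hj⟩ : ∃ j : ℕ, (1 : ℝ≥0∞) ≤ (j + 1 : ℝ≥0∞) * ((c / 2 : ℝ≥0) : ℝ≥0∞) := by
      obtain ⟨j, hj⟩ := exists_nat_gt (2 / c : ℝ≥0)
      refine ⟨j, ?_⟩
      have : (1 : ℝ≥0) ≤ (j + 1) * (c / 2) := by
        have hjr : (2 / c : ℝ) < j := by exact_mod_cast hj
        have hcr : (0:ℝ) < c := by exact_mod_cast hc0
        rw [← NNReal.coe_le_coe]
        push_cast
        rw [div_lt_iff₀ hcr] at hjr
        nlinarith
      exact_mod_cast this
    -- the limsup event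
    have h2 : ((c * c / (16 * V) : ℝ≥0) : ℝ≥0∞) ≤
        perc A ν {x | ∃ᶠ k in atTop, m ^ k ≤ (j + 1 : ℝ≥0∞) * Z' k x} := by
      have hset : {x : List A → A → Bool | ∃ᶠ k in atTop, m ^ k ≤ (j + 1 : ℝ≥0∞) * Z' k x} =
          ⋂ N, ⋃ k, {x | N ≤ k ∧ m ^ k ≤ (j + 1 : ℝ≥0∞) * Z' k x} := hfreq j
      rw [hset]
      have hmeas : ∀ N, MeasurableSet (⋃ k, {x : List A → A → Bool |
          N ≤ k ∧ m ^ k ≤ (j + 1 : ℝ≥0∞) * Z' k x}) := by
        intro N
        refine MeasurableSet.iUnion fun k => ?_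
        by_cases hNk : N ≤ k
        · simp only [hNk, true_and]; exact hBm j k
        · simp [hNk]
      have htend := tendsto_measure_iInter_atTop (μ := perc A ν)
        (s := fun N => ⋃ k, {x : List A → A → Bool |
          N ≤ k ∧ m ^ k ≤ (j + 1 : ℝ≥0∞) * Z' k x})
        (fun N => (hmeas N).nullMeasurableSet) ?_ ⟨0, measure_ne_top _ _⟩
      · refine ge_of_tendsto' htend fun N => (h1 N).trans (measure_mono ?_)
        intro x hx
        simp only [mem_ofPred_eq, mem_iUnion] at hx ⊢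
        refine ⟨N, le_rfl, ?_⟩
        calc m ^ N = 1 * m ^ N := (one_mul _).symm
          _ ≤ ((j + 1 : ℝ≥0∞) * ((c / 2 : ℝ≥0) : ℝ≥0∞)) * m ^ N := by gcongr
          _ = (j + 1 : ℝ≥0∞) * (((c / 2 : ℝ≥0) : ℝ≥0∞) * m ^ N) := by ring
          _ ≤ _ := by gcongr
      · intro N N' hNN' x hx
        simp only [mem_iUnion, mem_ofPred_eq] at hx ⊢
        obtain ⟨k, hk1, hk2⟩ := hx
        exact ⟨k, hNN'.trans hk1, hk2⟩
    have h3 : {x : List A → A → Bool | ∃ᶠ k in atTop, m ^ k ≤ (j + 1 : ℝ≥0∞) * Z' k x} ⊆ Eᶜ := by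
      intro x hx
      rw [hE]
      simp only [mem_compl_iff, mem_ofPred_eq, not_not]
      exact ⟨j, hx⟩
    have h4 : 0 < perc A ν Eᶜ := by
      refine lt_of_lt_of_le ?_ (h2.trans (measure_mono h3))
      rw [ENNReal.coe_pos]; positivity
    rw [prob_compl_eq_one_sub hEm] at h4
    exact tsub_pos_iff_lt.1 h4

end Pool.Agent.H36.Perc
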