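import Pool.Agent.H36.Perc.Lower

open MeasureTheory ProbabilityTheory Set Filter Metric
open scoped ENNReal NNReal Topology

namespace Pool.Agent.H36.Perc

variable {d n : ℕ}

/-- The distortion function `t ↦ 3 (t + t ^ 2)`. -/
noncomputable def etaFun (t : ℝ≥0) : ℝ≥0 := 3 * (t + t ^ 2)

theorem etaFun_strictMono : StrictMono etaFun := by
  intro a b hab
  unfold etaFun
  gcongr

theorem etaFun_surjective : Function.Surjective etaFun := by
  intro y
  have hc : Continuous etaFun := by unfold etaFun; fun_prop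
  have h := intermediate_value_Icc (show (0 : ℝ≥0) ≤ y from zero_le) hc.continuousOn
  have hy : y ∈ Icc (etaFun 0) (etaFun y) := by
    constructor
    · unfold etaFun; simp
    · unfold etaFun
      calc y ≤ y + (2 * y + 3 * y ^ 2) := le_self_add
        _ = _ := by ring
  obtain ⟨t, _, ht⟩ := h hy
  exact ⟨t, ht⟩

/-- The distortion function as a homeomorphism. -/
noncomputable def eta : ℝ≥0 ≃ₜ ℝ≥0 :=
  (etaFun_strictMono.orderIsoOfSurjective etaFun etaFun_surjective).toHomeomorph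

theorem eta_apply (t : ℝ≥0) : ((eta t : ℝ≥0) : ℝ) = 3 * ((t : ℝ) + (t : ℝ) ^ 2) := by
  have : eta t = etaFun t := rfl
  rw [this]
  unfold etaFun
  push_cast
  ring

/-- The conformal dimension bound on the event that the weighted sums converge. -/
theorem conf_le {a0 : ℕ} {c : List (Fin d → Fin n)} (hC : Central a0 c)
    {x : List (Fin d → Fin n) → (Fin d → Fin n) → Bool} {q : ℝ} (hq : 0 ≤ q)
    (hsum : ∑' j, ENNReal.ofReal (((n : ℝ) ^ a0) ^ (-q)) ^ j *
          fsum a0 c (ENNReal.ofReal ((1 / 4) ^ q)) j x < ∞) :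
    conformalUpperBoxDim (lim x) ≤ (q : EReal) := by
  set C := theCells hC x with hCdef
  set g : lim x → EuclideanSpace ℝ (Fin d) := fun y => C.f y with hg
  have : CompactSpace (lim x) := isCompact_iff_compactSpace.1 (isCompact_lim x)
  have hgc : Continuous g := by
    have : LipschitzWith (5 / 4) g := by
      apply LipschitzWith.of_dist_le_mul
      intro y z
      rw [dist_eq_norm, Subtype.dist_eq, dist_eq_norm]
      have := C.lipschitz y.2 z.2
      simpa using this
    exact this.continuous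
  have hgi : Function.Injective g := by
    intro y z h
    exact Subtype.ext (C.injOn y.2 z.2 h)
  have hemb : Topology.IsEmbedding g := (hgc.isClosedEmbedding hgi).isEmbedding
  set Φ : lim x ≃ₜ Set.range g := hemb.toHomeomorph with hΦ
  have hΦv : ∀ y, ((Φ y : Set.range g) : EuclideanSpace ℝ (Fin d)) = C.f y := fun y => rfl
  have hqs : IsQuasisymmetric Φ := by
    refine ⟨eta, ?_⟩
    intro y a b t ht h
    rw [Subtype.dist_eq, Subtype.dist_eq, dist_eq_norm, dist_eq_norm] at h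
    rw [Subtype.dist_eq, Subtype.dist_eq, dist_eq_norm, dist_eq_norm, hΦv, hΦv, hΦv, eta_apply]
    exact C.qs y.2 a.2 b.2 (by exact_mod_cast ht) h
  have hdim : upperBoxDim (Set.range g) ≤ (q : EReal) := by
    have hn := hC.npos
    have hd : (0:ℝ) < d := by exact_mod_cast hC.hd
    set S := ∑' j, ENNReal.ofReal (((n : ℝ) ^ a0) ^ (-q)) ^ j *
          fsum a0 c (ENNReal.ofReal ((1 / 4) ^ q)) j x with hS
    have hKpos : 0 < (4 * (n : ℝ) ^ a0) ^ q * (S.toReal + 1) := by
      have : 0 ≤ S.toReal := ENNReal.toReal_nonneg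
      positivity
    apply upperBoxDim_le (K := (4 * (n : ℝ) ^ a0) ^ q * (S.toReal + 1)) (s := 5 / 4 * d)
      hKpos (by positivity)
    intro r hr0 hr1
    have h1 := cover_bound hC (x := x) hq hr0 hr1
    rw [mul_assoc (5 / 4 : ℝ) (d : ℝ) r]
    refine h1.trans ?_
    rw [← hS]
    have h2 : S = ENNReal.ofReal S.toReal := (ENNReal.ofReal_toReal hsum.ne).symm
    rw [h2, ← ENNReal.ofReal_mul (by positivity)]
    apply ENNReal.ofReal_le_ofReal
    have h3 : 4 * (n : ℝ) ^ a0 / r = 4 * (n : ℝ) ^ a0 * (1 / r) := by ring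
    rw [h3, Real.mul_rpow (by positivity) (by positivity), ENNReal.toReal_ofReal
      ENNReal.toReal_nonneg]
    have h4 : 0 ≤ (4 * (n : ℝ) ^ a0) ^ q * (1 / r) ^ q := by positivity
    nlinarith
  refine le_trans ?_ hdim
  apply sInf_le
  exact ⟨Set.range g, inferInstance, Φ, hqs, rfl⟩

theorem corner_replicate (z : Fin d → Fin n) (hz : ∀ i, (z i : ℕ) = 0) (m : ℕ) (i : Fin d) :
    corner (List.replicate m z) i = 0 := by
  induction m with
  | zero => simp
  | succ m ih => rw [List.replicate_succ, corner_cons, ih, hz]; simp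

/-- Central letters exist. -/
theorem exists_central (hd : 1 ≤ d) (hn : 2 ≤ n) :
    ∃ (a0 : ℕ) (c : List (Fin d → Fin n)), Central a0 c := by
  have hn0 : 0 < n := by omega
  have hn' : (0 : ℝ) < n := by exact_mod_cast hn0
  have hn2 : (2 : ℝ) ≤ n := by exact_mod_cast hn
  obtain ⟨m, hm⟩ := pow_unbounded_of_one_lt (16 * (n : ℝ) * d) (show (1:ℝ) < n by linarith)
  set z : Fin d → Fin n := fun _ => ⟨0, hn0⟩ with hz
  set e : Fin d → Fin n := fun _ => ⟨n - 1, by omega⟩ with he
  have hev : ∀ i, ((e i : ℕ) : ℝ) = n - 1 := by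
    intro i
    have : (e i : ℕ) = n - 1 := rfl
    rw [this, Nat.cast_sub (by omega)]
    simp
  have hcor : ∀ i, corner (z :: e :: List.replicate m z) i = ((n : ℝ) - 1) / n / n := by
    intro i
    have hz0 : ∀ i, (z i : ℕ) = 0 := fun _ => rfl
    have h0 := corner_replicate z hz0 m i
    rw [corner_cons, corner_cons, h0, hev i, hz0 i]
    simp
  refine ⟨m + 2, z :: e :: List.replicate m z, ?_, hn0, by simp, ?_, ?_, ?_⟩
  · omega
  · intro i
    rw [hcor, div_div, div_le_div_iff₀ (by positivity) (by positivity)]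
    nlinarith
  · intro i
    rw [hcor]
    have h1 : (z :: e :: List.replicate m z).length = m + 2 := by simp
    rw [h1]
    have h2 : 1 / (n : ℝ) ^ (m + 2) ≤ 1 / (n : ℝ) ^ 2 := by
      apply one_div_le_one_div_of_le (by positivity)
      exact pow_le_pow_right₀ (by linarith) (by omega)
    have h3 : ((n : ℝ) - 1) / n / n + 1 / (n : ℝ) ^ 2 = 1 / n := by field_simp; ring
    have h4 : 1 / (n : ℝ) ≤ 1 / 2 := one_div_le_one_div_of_le (by norm_num) hn2
    have h5 : 1 / (2 * (n : ℝ)) = 1 / n / 2 := by field_simp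
    linarith
  · rw [pow_add]
    have h1 : (1:ℝ) ≤ (n : ℝ) ^ 2 := by nlinarith
    have h2 : 0 < (n : ℝ) ^ m := by positivity
    nlinarith

/-- The choice of the exponent. -/
theorem exists_exponent {N s b : ℝ} (hN : 0 < N) (hs : 0 < s) (hb : 0 < b) :
    ∃ q, 0 < q ∧ q < s ∧ N ^ (-q) * (N ^ s - (1 - (1 / 4 : ℝ) ^ q) * b) < 1 := by
  set h : ℝ → ℝ := fun q => N ^ (-q) * (N ^ s - (1 - (1 / 4 : ℝ) ^ q) * b) with hh
  have hcont : Continuous h := by
    have h1 : Continuous fun q : ℝ => N ^ (-q) :=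
      (Real.continuous_const_rpow hN.ne').comp continuous_neg
    have h2 : Continuous fun q : ℝ => (1 / 4 : ℝ) ^ q := Real.continuous_const_rpow (by norm_num)
    exact h1.mul (continuous_const.sub ((continuous_const.sub h2).mul continuous_const))
  have hs1 : h s < 1 := by
    have e1 : N ^ (-s) * N ^ s = 1 := by rw [← Real.rpow_add hN]; simp
    have e2 : (1 / 4 : ℝ) ^ s < 1 := Real.rpow_lt_one (by norm_num) (by norm_num) hs
    have e3 : 0 < N ^ (-s) := by positivity
    have e4 : h s = 1 - N ^ (-s) * ((1 - (1 / 4 : ℝ) ^ s) * b) := by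
      rw [hh]
      show N ^ (-s) * (N ^ s - (1 - (1 / 4 : ℝ) ^ s) * b) = _
      rw [mul_sub, e1]
    rw [e4]
    have : 0 < N ^ (-s) * ((1 - (1 / 4 : ℝ) ^ s) * b) := by
      apply mul_pos e3 (mul_pos (by linarith) hb)
    linarith
  have h1 : ∀ᶠ q in 𝓝 s, h q < 1 := hcont.continuousAt.eventually (gt_mem_nhds hs1)
  have h2 : ∀ᶠ q in 𝓝[<] s, h q < 1 := h1.filter_mono nhdsWithin_le_nhds
  have h3 : ∀ᶠ q in 𝓝[<] s, q ∈ Ioo 0 s := Ioo_mem_nhdsLT hs
  obtain ⟨q, hq1, hq2⟩ := (h2.and h3).exists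
  exact ⟨q, hq2.1, hq2.2, hq1⟩

/-- The main theorem for the model law. -/
theorem main_perc (hd : 1 ≤ d) (hn : 2 ≤ n) (ν : Measure Bool) [IsProbabilityMeasure ν]
    {s : ℝ} (hs : 0 < s)
    (hm : (Fintype.card (Fin d → Fin n) : ℝ≥0∞) * ν {true} = ENNReal.ofReal ((n : ℝ) ^ s))
    (ht : ν {true} ≠ 0) (hf : ν {false} ≠ 0) :
    ∃ q : ℝ, q < s ∧ ∀ᵐ x ∂perc (Fin d → Fin n) ν, surv x →
      conformalUpperBoxDim (lim x) ≤ (q : EReal) ∧ (s : EReal) ≤ upperBoxDim (lim x) := by
  obtain ⟨a0, c, hC⟩ := exists_central hd hn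
  have hn0 : 0 < n := by omega
  have hn' : (0 : ℝ) < n := by exact_mod_cast hn0
  have hn1 : (1 : ℝ) < n := by exact_mod_cast (show 1 < n by omega)
  have hbet0 : bet (Fin d → Fin n) ν ≠ 0 := by
    unfold bet
    exact mul_ne_zero ht (pow_ne_zero _ hf)
  have hbett : bet (Fin d → Fin n) ν ≠ ∞ := by
    unfold bet
    exact ENNReal.mul_ne_top (measure_ne_top _ _) (ENNReal.pow_ne_top (measure_ne_top _ _))
  set β : ℝ := (bet (Fin d → Fin n) ν).toReal with hβ
  have hβ0 : 0 < β := ENNReal.toReal_pos hbet0 hbett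
  have hβe : bet (Fin d → Fin n) ν = ENNReal.ofReal β := (ENNReal.ofReal_toReal hbett).symm
  obtain ⟨q, hq0, hqs, hlt⟩ := exists_exponent (N := (n : ℝ) ^ a0) (s := s) (b := β ^ a0)
    (by positivity) hs (by positivity)
  have h14 : (1 / 4 : ℝ) ^ q ≤ 1 := Real.rpow_le_one (by norm_num) (by norm_num) hq0.le
  have hup := upper_sum (A := Fin d → Fin n) ν hC.len
    (t := ENNReal.ofReal ((1 / 4) ^ q)) (L := ENNReal.ofReal (((n : ℝ) ^ a0) ^ (-q)))
    (by rw [← ENNReal.ofReal_one]; exact ENNReal.ofReal_le_ofReal h14) (by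
      rw [hm, hβe, ← ENNReal.ofReal_pow (by positivity), ← ENNReal.ofReal_pow (by positivity)]
      have e1 : (1 : ℝ≥0∞) - ENNReal.ofReal ((1 / 4) ^ q) = ENNReal.ofReal (1 - (1 / 4) ^ q) := by
        rw [ENNReal.ofReal_sub _ (by positivity), ENNReal.ofReal_one]
      rw [e1, ← ENNReal.ofReal_mul (by linarith), ← ENNReal.ofReal_sub _
        (mul_nonneg (by linarith) (by positivity)), ← ENNReal.ofReal_mul (by positivity),
        ENNReal.ofReal_lt_one]
      have e2 : ((n : ℝ) ^ s) ^ a0 = ((n : ℝ) ^ a0) ^ s := Real.rpow_pow_comm hn'.le _ _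
      rw [e2]
      exact hlt)
  have hcard : 2 ≤ Fintype.card (Fin d → Fin n) := by
    rw [Fintype.card_fun, Fintype.card_fin, Fintype.card_fin]
    calc 2 ≤ n := hn
      _ = n ^ 1 := (pow_one n).symm
      _ ≤ n ^ d := Nat.pow_le_pow_right hn0 hd
  have hgr := growth (A := Fin d → Fin n) ν hcard (by
    rw [hm, ENNReal.one_lt_ofReal]
    exact Real.one_lt_rpow hn1 hs)
  refine ⟨q, hqs, ?_⟩
  filter_upwards [hup, hgr] with x hx1 hx2 hsv
  refine ⟨conf_le hC hq0.le hx1, le_dim hn ?_⟩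
  have := hx2 hsv
  rw [hm] at this
  exact this

end Pool.Agent.H36.Perc
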