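import Pool.Agent.H36.Perc.Main

open MeasureTheory ProbabilityTheory Set Filter Metric
open scoped ENNReal NNReal Topology

namespace Pool.Agent.H36.Perc

variable {d n : ℕ}

/-- The cube with address `w` survives up to its own level: it and all its ancestors, except
the unit cube itself (the empty address), have status `true`, that is, are kept. -/
def Retained (s : List (Fin d → Fin n) → Bool) (w : List (Fin d → Fin n)) : Prop :=
  ∀ v, v <+: w → v ≠ [] → s v = true

/-- The union `F_k` of the cubes of level `k` kept in the construction. -/
def percLevel (s : List (Fin d → Fin n) → Bool) (k : ℕ) : Set (EuclideanSpace ℝ (Fin d)) :=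
  {y | ∃ w, w.length = k ∧ Retained s w ∧ y ∈ cube w}

/-- The limit set `F = ⋂ k, F_k` of Mandelbrot percolation with statuses `s`. -/
def percSet (s : List (Fin d → Fin n) → Bool) : Set (EuclideanSpace ℝ (Fin d)) :=
  ⋂ k, percLevel s k

theorem kept_iff (s : List (Fin d → Fin n) → Bool) (w : List (Fin d → Fin n)) :
    kept (fun w a => s (w ++ [a])) w ↔ Retained s w := by
  induction w using List.reverseRecOn with
  | nil =>
    constructor
    · intro _ v hv hne
      exact absurd (List.prefix_nil.1 hv) hne
    · intro _; trivial
  | append_singleton w a ih =>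
    rw [kept_append, ih]
    have h1 : kept (sub (fun (w : List (Fin d → Fin n)) a => s (w ++ [a])) w) [a] ↔
        s (w ++ [a]) = true := by
      constructor
      · rintro ⟨h, _⟩
        have : sub (fun (w : List (Fin d → Fin n)) a => s (w ++ [a])) w [] a = true := h
        simpa [sub] using this
      · intro h
        refine ⟨?_, trivial⟩
        show sub (fun (w : List (Fin d → Fin n)) a => s (w ++ [a])) w [] a = true
        simpa [sub] using h
    rw [h1]
    constructor
    · rintro ⟨h2, h3⟩ v hv hne
      rcases List.prefix_concat_iff.1 hv with h | h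
      · rw [h]; exact h3
      · exact h2 v h hne
    · intro h
      refine ⟨fun v hv hne => h v (hv.trans (List.prefix_append _ _)) hne, ?_⟩
      exact h _ (List.prefix_refl _) (by simp)

theorem percSet_eq (s : List (Fin d → Fin n) → Bool) :
    percSet s = lim (fun w a => s (w ++ [a])) := by
  ext y
  simp only [percSet, percLevel, lim, mem_iInter, mem_ofPred_eq, kept_iff]

theorem append_pair_injective (A : Type*) :
    Function.Injective (fun q : List A × A => q.1 ++ [q.2]) := by
  intro q q' h
  have h' : q.1 ++ [q.2] = q'.1 ++ [q'.2] := h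
  have h2 := List.append_inj' h' rfl
  exact Prod.ext h2.1 (by simpa using h2.2)

theorem law_bool {Ω : Type*} [MeasurableSpace Ω] (P : Measure Ω) [IsProbabilityMeasure P]
    {f g : Ω → Bool} (hf : Measurable f) (hg : Measurable g)
    (h : P {ω | f ω = true} = P {ω | g ω = true}) : P.map f = P.map g := by
  have hpf : IsProbabilityMeasure (P.map f) := Measure.isProbabilityMeasure_map hf.aemeasurable
  have hpg : IsProbabilityMeasure (P.map g) := Measure.isProbabilityMeasure_map hg.aemeasurable
  have ht : P.map f {true} = P.map g {true} := by
    rw [Measure.map_apply hf (measurableSet_singleton _),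
      Measure.map_apply hg (measurableSet_singleton _)]
    exact h
  have hc : ({false} : Set Bool) = {true}ᶜ := by ext b; cases b <;> simp
  apply Measure.ext_of_singleton
  intro b
  cases b with
  | true => exact ht
  | false =>
    rw [hc, prob_compl_eq_one_sub (measurableSet_singleton _),
      prob_compl_eq_one_sub (measurableSet_singleton _), ht]

/-- The statuses of all the cubes have the model law. -/
theorem law_eq {Ω : Type*} [MeasurableSpace Ω] (P : Measure Ω) [IsProbabilityMeasure P]
    (ξ : List (Fin d → Fin n) → Ω → Bool) (hξ : ∀ w, Measurable (ξ w)) (hind : iIndepFun ξ P)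
    {p : ℝ} (hlaw : ∀ w, P {ω | ξ w ω = true} = ENNReal.ofReal p)
    [hprob : IsProbabilityMeasure (P.map (ξ []))] :
    P.map (fun ω w a => ξ (w ++ [a]) ω) = perc (Fin d → Fin n) (P.map (ξ [])) := by
  have hX : iIndepFun (fun (q : List (Fin d → Fin n) × (Fin d → Fin n)) => ξ (q.1 ++ [q.2])) P :=
    hind.precomp (append_pair_injective _)
  have h1 := hX.map_fun_eq_infinitePi_map (fun q => hξ _)
  have h2 : ∀ q : List (Fin d → Fin n) × (Fin d → Fin n),
      P.map (ξ (q.1 ++ [q.2])) = P.map (ξ []) := by
    intro q
    apply law_bool P (hξ _) (hξ _)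
    rw [hlaw, hlaw]
  simp only [h2] at h1
  have h3 := Measure.infinitePi_map_curry (ι := List (Fin d → Fin n)) (κ := Fin d → Fin n)
    (X := Bool) (fun _ _ => P.map (ξ []))
  rw [← h1, Measure.map_map (MeasurableEquiv.measurable _)
    (measurable_pi_iff.2 fun q => hξ _)] at h3
  unfold perc treeLaw lab
  simp only [Measure.infinitePi_eq_pi] at h3
  exact h3

end Pool.Agent.H36.Perc
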