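import Pool.Agent.H36.Perc.Count

open MeasureTheory ProbabilityTheory Set
open scoped ENNReal NNReal

namespace Pool.Agent.H36.Perc

variable {A S : Type*} [Fintype A]

/-- The law of the statuses of the children of one cube. -/
noncomputable def lab (A : Type*) [Fintype A] (ν : Measure Bool) : Measure (A → Bool) :=
  Measure.pi fun _ : A => ν

instance (ν : Measure Bool) [IsProbabilityMeasure ν] : IsProbabilityMeasure (lab A ν) := by
  unfold lab; infer_instance

/-- The child `a` is kept. -/
def on (a : A) : Set (A → Bool) := {s | s a = true}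

omit [Fintype A] in
theorem measurableSet_on (a : A) : MeasurableSet (on a) := by
  have : on a = (fun s : A → Bool => s a) ⁻¹' {true} := by ext; simp [on]
  rw [this]
  exact (measurable_pi_apply a) (measurableSet_singleton _)

theorem lab_on (ν : Measure Bool) [IsProbabilityMeasure ν] (a : A) :
    lab A ν (on a) = ν {true} := by
  have : on a = (fun s : A → Bool => s a) ⁻¹' {true} := by ext; simp [on]
  rw [this]
  exact (measurePreserving_eval (fun _ : A => ν) a).measure_preimage
    (measurableSet_singleton _).nullMeasurableSet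

theorem lintegral_two [MeasurableSpace S] (μ : Measure S) [IsProbabilityMeasure μ]
    {f g : S → ℝ≥0∞} (hf : Measurable f) (hg : Measurable g) {a b : A} (hab : a ≠ b) :
    ∫⁻ y, f (y a) * g (y b) ∂(Measure.pi fun _ : A => μ) = (∫⁻ x, f x ∂μ) * ∫⁻ x, g x ∂μ := by
  have h := Measure.infinitePi_map_eval_prod (P := fun _ : A => μ) hab
  rw [Measure.infinitePi_eq_pi] at h
  have h2 : ∫⁻ y, f (y a) * g (y b) ∂(Measure.pi fun _ : A => μ) =
      ∫⁻ z, f z.1 * g z.2 ∂((Measure.pi fun _ : A => μ).map (fun y => (y a, y b))) := by
    rw [lintegral_map]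
    · exact (hf.comp measurable_fst).mul (hg.comp measurable_snd)
    · fun_prop
  rw [h2, h, lintegral_prod_mul hf.aemeasurable hg.aemeasurable]

theorem lintegral_on_on (ν : Measure Bool) [IsProbabilityMeasure ν] {a b : A} (hab : a ≠ b) :
    ∫⁻ s, indicator (on a) (1 : (A → Bool) → ℝ≥0∞) s * indicator (on b) 1 s ∂lab A ν =
      ν {true} * ν {true} := by
  have h := lintegral_two (A := A) ν (f := indicator {true} 1) (g := indicator {true} 1)
    (measurable_one.indicator (measurableSet_singleton _))
    (measurable_one.indicator (measurableSet_singleton _)) hab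
  rw [lintegral_indicator_one (measurableSet_singleton _)] at h
  rw [← h]
  rfl

/-- The law of the whole configuration of statuses. -/
noncomputable def perc (A : Type*) [Fintype A] (ν : Measure Bool) [IsProbabilityMeasure ν] :
    Measure (List A → A → Bool) := treeLaw A (lab A ν)

instance (ν : Measure Bool) [IsProbabilityMeasure ν] : IsProbabilityMeasure (perc A ν) := by
  unfold perc; infer_instance

/-- All cubes on the way to the word `w` are kept. -/
def kept (x : List A → A → Bool) (w : List A) : Prop := pathEv on x w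

omit [Fintype A] in
theorem measurableSet_kept (w : List A) : MeasurableSet {x : List A → A → Bool | kept x w} :=
  measurableSet_pathEv measurableSet_on w

/-- The number of kept words of length `k`. -/
noncomputable def Z (k : ℕ) (x : List A → A → Bool) : ℝ≥0∞ :=
  ∑ w ∈ words A k, indicator {x | kept x w} 1 x

theorem measurable_Z (k : ℕ) : Measurable (Z (A := A) k) := by
  unfold Z
  apply Finset.measurable_sum
  intro w _
  exact measurable_one.indicator (measurableSet_kept w)

omit [Fintype A] in
theorem indicator_kept_cons (x : List A → A → Bool) (a : A) (w : List A) :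
    indicator {x | kept x (a :: w)} (1 : (List A → A → Bool) → ℝ≥0∞) x =
      indicator (on a) (1 : (A → Bool) → ℝ≥0∞) (x []) *
        indicator {x | kept x w} (1 : (List A → A → Bool) → ℝ≥0∞) (sub x [a]) := by
  by_cases h1 : x [] ∈ on a
  · by_cases h2 : kept (sub x [a]) w
    · have : kept x (a :: w) := ⟨h1, h2⟩
      simp [indicator, h1, h2, this]
    · have : ¬ kept x (a :: w) := fun h => h2 h.2
      simp [indicator, h2, this]
  · have : ¬ kept x (a :: w) := fun h => h1 h.1
    simp [indicator, h1, this]

theorem Z_succ (k : ℕ) (x : List A → A → Bool) :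
    Z (k + 1) x = ∑ a : A, indicator (on a) 1 (x []) * Z k (sub x [a]) := by
  unfold Z
  rw [sum_words_succ]
  apply Finset.sum_congr rfl
  intro a _
  rw [Finset.mul_sum]
  apply Finset.sum_congr rfl
  intro w _
  exact indicator_kept_cons x a w

theorem lintegral_kept (ν : Measure Bool) [IsProbabilityMeasure ν]
    {E : Set (List A → A → Bool)} (hE : MeasurableSet E) (w : List A) :
    perc A ν {x | kept x w ∧ sub x w ∈ E} = ν {true} ^ w.length * perc A ν E :=
  measure_path (lab A ν) measurableSet_on (lab_on ν) hE w

theorem lintegral_Z (ν : Measure Bool) [IsProbabilityMeasure ν] (k : ℕ) :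
    ∫⁻ x, Z k x ∂perc A ν = (Fintype.card A * ν {true}) ^ k := by
  unfold Z
  rw [lintegral_finsetSum _ (fun w _ => measurable_one.indicator (measurableSet_kept w))]
  have : ∀ w ∈ words A k, ∫⁻ x, indicator {x | kept x w} 1 x ∂perc A ν = ν {true} ^ k := by
    intro w hw
    rw [lintegral_indicator_one (measurableSet_kept w)]
    have h := lintegral_kept (A := A) ν MeasurableSet.univ w
    simp only [mem_univ, and_true, measure_univ, mul_one] at h
    rw [h, mem_words.1 hw]
  rw [Finset.sum_congr rfl this, Finset.sum_const, card_words, nsmul_eq_mul, mul_pow]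
  push_cast
  rfl

theorem lintegral_Z_sq_succ (ν : Measure Bool) [IsProbabilityMeasure ν] (k : ℕ) :
    ∫⁻ x, Z (k + 1) x * Z (k + 1) x ∂perc A ν ≤
      (Fintype.card A * ν {true}) * ∫⁻ x, Z k x * Z k x ∂perc A ν +
        (Fintype.card A * ν {true}) ^ (2 * (k + 1)) := by
  classical
  have hm : Measurable fun x : List A → A → Bool => Z (k + 1) x * Z (k + 1) x :=
    (measurable_Z _).mul (measurable_Z _)
  have hon : ∀ a : A, Measurable (indicator (on a) (1 : (A → Bool) → ℝ≥0∞)) := fun a =>
    measurable_one.indicator (measurableSet_on a)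
  unfold perc
  rw [lintegral_tree _ hm]
  have hexp : ∀ (s : A → Bool) (y : A → List A → A → Bool),
      Z (k + 1) (glue (s, y)) * Z (k + 1) (glue (s, y)) =
        ∑ a : A, ∑ b : A, (indicator (on a) (1 : (A → Bool) → ℝ≥0∞) s *
          indicator (on b) (1 : (A → Bool) → ℝ≥0∞) s) * (Z k (y a) * Z k (y b)) := by
    intro s y
    rw [Z_succ, Finset.sum_mul_sum]
    apply Finset.sum_congr rfl
    intro a _
    apply Finset.sum_congr rfl
    intro b _
    simp only [glue_nil, sub_glue]
    ring
  have hinner : ∀ s : A → Bool,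
      ∫⁻ y, Z (k + 1) (glue (s, y)) * Z (k + 1) (glue (s, y))
        ∂(Measure.pi fun _ : A => treeLaw A (lab A ν)) =
      ∑ a : A, ∑ b : A, (indicator (on a) (1 : (A → Bool) → ℝ≥0∞) s *
          indicator (on b) (1 : (A → Bool) → ℝ≥0∞) s) *
          ∫⁻ y, Z k (y a) * Z k (y b) ∂(Measure.pi fun _ : A => treeLaw A (lab A ν)) := by
    intro s
    simp only [hexp]
    have hzz : ∀ a b : A, Measurable fun y : A → List A → A → Bool => Z k (y a) * Z k (y b) :=
      fun a b => ((measurable_Z k).comp (measurable_pi_apply a)).mul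
        ((measurable_Z k).comp (measurable_pi_apply b))
    rw [lintegral_finsetSum _ (fun a _ => Finset.measurable_sum _ fun b _ =>
      (hzz a b).const_mul _)]
    apply Finset.sum_congr rfl
    intro a _
    rw [lintegral_finsetSum _ (fun b _ => (hzz a b).const_mul _)]
    apply Finset.sum_congr rfl
    intro b _
    rw [lintegral_const_mul _ (hzz a b)]
  simp only [hinner]
  have hom : ∀ a b : A, ∀ c : ℝ≥0∞, Measurable fun s : A → Bool =>
      (indicator (on a) (1 : (A → Bool) → ℝ≥0∞) s *
        indicator (on b) (1 : (A → Bool) → ℝ≥0∞) s) * c :=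
    fun a b c => ((hon a).mul (hon b)).mul_const c
  rw [lintegral_finsetSum _ (fun a _ => Finset.measurable_sum _ fun b _ => hom a b _)]
  have hpair : ∀ a b : A, ∫⁻ s, (indicator (on a) (1 : (A → Bool) → ℝ≥0∞) s *
          indicator (on b) (1 : (A → Bool) → ℝ≥0∞) s) *
          ∫⁻ y, Z k (y a) * Z k (y b) ∂(Measure.pi fun _ : A => treeLaw A (lab A ν)) ∂lab A ν ≤
      (if a = b then ν {true} * ∫⁻ x, Z k x * Z k x ∂treeLaw A (lab A ν) else 0) +
        ν {true} * ν {true} * ((Fintype.card A * ν {true}) ^ k * (Fintype.card A * ν {true}) ^ k) := by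
    intro a b
    have hom' : Measurable fun s : A → Bool => indicator (on a) (1 : (A → Bool) → ℝ≥0∞) s *
        indicator (on b) (1 : (A → Bool) → ℝ≥0∞) s := (hon a).mul (hon b)
    rw [lintegral_mul_const _ hom']
    by_cases hab : a = b
    · subst hab
      rw [if_pos rfl]
      refine le_trans (le_of_eq ?_) le_self_add
      congr 1
      · have : ∀ s, indicator (on a) (1 : (A → Bool) → ℝ≥0∞) s *
            indicator (on a) (1 : (A → Bool) → ℝ≥0∞) s = indicator (on a) 1 s := by
          intro s
          by_cases h : s ∈ on a <;> simp [indicator, h]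
        simp only [this]
        rw [lintegral_indicator_one (measurableSet_on a), lab_on]
      · exact (measurePreserving_eval (fun _ : A => treeLaw A (lab A ν)) a).lintegral_comp
          ((measurable_Z k).mul (measurable_Z k))
    · rw [if_neg hab, zero_add, lintegral_on_on ν hab,
        lintegral_two _ (measurable_Z k) (measurable_Z k) hab]
      have := lintegral_Z (A := A) ν k
      unfold perc at this
      rw [this]
  calc ∑ a : A, ∫⁻ s, ∑ b : A, (indicator (on a) (1 : (A → Bool) → ℝ≥0∞) s *
          indicator (on b) (1 : (A → Bool) → ℝ≥0∞) s) *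
          ∫⁻ y, Z k (y a) * Z k (y b) ∂(Measure.pi fun _ : A => treeLaw A (lab A ν)) ∂lab A ν
      = ∑ a : A, ∑ b : A, ∫⁻ s, (indicator (on a) (1 : (A → Bool) → ℝ≥0∞) s *
          indicator (on b) (1 : (A → Bool) → ℝ≥0∞) s) *
          ∫⁻ y, Z k (y a) * Z k (y b) ∂(Measure.pi fun _ : A => treeLaw A (lab A ν)) ∂lab A ν := by
        apply Finset.sum_congr rfl
        intro a _
        rw [lintegral_finsetSum _ (fun b _ => hom a b _)]
    _ ≤ ∑ a : A, ∑ b : A, ((if a = b then ν {true} *
          ∫⁻ x, Z k x * Z k x ∂treeLaw A (lab A ν) else 0) +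
        ν {true} * ν {true} * ((Fintype.card A * ν {true}) ^ k * (Fintype.card A * ν {true}) ^ k)) := by
        apply Finset.sum_le_sum
        intro a _
        apply Finset.sum_le_sum
        intro b _
        exact hpair a b
    _ = _ := by
        simp only [Finset.sum_add_distrib, Finset.sum_ite_eq, Finset.mem_univ, if_true,
          Finset.sum_const, Finset.card_univ, nsmul_eq_mul]
        ring

end Pool.Agent.H36.Perc
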