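import Pool.Agent.H36.Perc.Self

open MeasureTheory ProbabilityTheory Set
open scoped ENNReal

namespace Pool.Agent.H36.Perc

variable {A : Type*} {S : Type*}

/-- Along the path `w` the label at each vertex lies in the set attached to the next letter. -/
def pathEv (G : A → Set S) : (List A → S) → List A → Prop
  | _, [] => True
  | x, a :: w => x [] ∈ G a ∧ pathEv G (sub x [a]) w

@[simp] theorem pathEv_nil (G : A → Set S) (x : List A → S) : pathEv G x [] := trivial

@[simp] theorem pathEv_cons (G : A → Set S) (x : List A → S) (a : A) (w : List A) :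
    pathEv G x (a :: w) ↔ x [] ∈ G a ∧ pathEv G (sub x [a]) w := Iff.rfl

theorem pathEv_append (G : A → Set S) (x : List A → S) (u v : List A) :
    pathEv G x (u ++ v) ↔ pathEv G x u ∧ pathEv G (sub x u) v := by
  induction u generalizing x with
  | nil => simp
  | cons a u ih =>
    rw [List.cons_append, pathEv_cons, pathEv_cons, ih, ← sub_cons, and_assoc]

theorem pathEv_mono {G H : A → Set S} (h : ∀ a, G a ⊆ H a) {x : List A → S} {w : List A}
    (hx : pathEv G x w) : pathEv H x w := by
  induction w generalizing x with
  | nil => trivial
  | cons a w ih => exact ⟨h a hx.1, ih hx.2⟩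

variable [MeasurableSpace S]

theorem measurableSet_pathEv {G : A → Set S} (hG : ∀ a, MeasurableSet (G a)) (w : List A) :
    MeasurableSet {x : List A → S | pathEv G x w} := by
  induction w with
  | nil => simp
  | cons a w ih =>
    have : {x : List A → S | pathEv G x (a :: w)} =
        (fun x : List A → S => x []) ⁻¹' (G a) ∩ (fun x => sub x [a]) ⁻¹' {x | pathEv G x w} := by
      ext x; simp
    rw [this]
    exact ((measurable_pi_apply _) (hG a)).inter ((measurable_sub _) ih)

/-- The path lemma: integration of a function of the subtree at `w` on a path event. -/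
theorem lintegral_path [Fintype A] (κ : Measure S) [IsProbabilityMeasure κ]
    {G : A → Set S} (hG : ∀ a, MeasurableSet (G a)) {g : ℝ≥0∞} (hg : ∀ a, κ (G a) = g)
    {h : (List A → S) → ℝ≥0∞} (hh : Measurable h) (w : List A) :
    ∫⁻ x, indicator {x | pathEv G x w} 1 x * h (sub x w) ∂treeLaw A κ =
      g ^ w.length * ∫⁻ x, h x ∂treeLaw A κ := by
  induction w with
  | nil => simp
  | cons a w ih =>
    have hm : Measurable fun x : List A → S =>
        indicator {x | pathEv G x w} (1 : (List A → S) → ℝ≥0∞) x * h (sub x w) :=
      (measurable_one.indicator (measurableSet_pathEv hG w)).mul (hh.comp (measurable_sub _))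
    have key := lintegral_peel (A := A) κ (g := indicator (G a) 1)
      (measurable_one.indicator (hG a)) hm a
    rw [ih, lintegral_indicator_one (hG a), hg a] at key
    rw [List.length_cons, pow_succ, mul_comm (g ^ w.length) g, mul_assoc, ← key]
    congr 1
    funext x
    rw [sub_cons, ← mul_assoc]
    congr 1
    by_cases h1 : x [] ∈ G a
    · by_cases h2 : pathEv G (sub x [a]) w <;> simp [indicator, h1, h2]
    · simp [indicator, h1]

theorem measure_path [Fintype A] (κ : Measure S) [IsProbabilityMeasure κ]
    {G : A → Set S} (hG : ∀ a, MeasurableSet (G a)) {g : ℝ≥0∞} (hg : ∀ a, κ (G a) = g)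
    {E : Set (List A → S)} (hE : MeasurableSet E) (w : List A) :
    treeLaw A κ {x | pathEv G x w ∧ sub x w ∈ E} = g ^ w.length * treeLaw A κ E := by
  have := lintegral_path κ hG hg (h := indicator E 1) (measurable_one.indicator hE) w
  rw [lintegral_indicator_one hE] at this
  rw [← this, ← lintegral_indicator_one]
  · congr 1
    funext x
    by_cases h1 : pathEv G x w <;> by_cases h2 : sub x w ∈ E <;> simp [indicator, h1, h2]
  · exact (measurableSet_pathEv hG w).inter ((measurable_sub w) hE)

end Pool.Agent.H36.Perc
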