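import Mathlib

open MeasureTheory ProbabilityTheory Set
open scoped ENNReal

namespace Pool.Agent.H36.Perc

variable {A : Type*} {S : Type*}

/-- Glue a root label and a family of labelled trees into one labelled tree. -/
def glue (z : S × (A → List A → S)) : List A → S
  | [] => z.1
  | a :: w => z.2 a w

@[simp] theorem glue_nil (z : S × (A → List A → S)) : glue z [] = z.1 := rfl
@[simp] theorem glue_cons (z : S × (A → List A → S)) (a : A) (w : List A) :
    glue z (a :: w) = z.2 a w := rfl

theorem measurable_glue [MeasurableSpace S] : Measurable (glue (A := A) (S := S)) := by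
  rw [measurable_pi_iff]
  intro w
  cases w with
  | nil => exact measurable_fst
  | cons a w =>
    have : Measurable fun z : S × (A → List A → S) => z.2 a w := by fun_prop
    exact this

theorem prod_split [Fintype A] [DecidableEq A] (s : Finset (List A)) (h : List A → ℝ≥0∞) :
    ∏ i ∈ s, h i = (if [] ∈ s then h [] else 1) *
      ∏ a : A, ∏ w ∈ s.preimage (List.cons a) (List.cons_injective.injOn), h (a :: w) := by
  classical
  rw [← Finset.prod_fiberwise (s := s) (g := List.head?) (f := h), Fintype.prod_option]
  congr 1
  · by_cases hs : [] ∈ s
    · have : s.filter (fun i => i.head? = none) = {[]} := by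
        ext w
        simp only [Finset.mem_filter, Finset.mem_singleton, List.head?_eq_none_iff]
        constructor
        · rintro ⟨_, h⟩; exact h
        · rintro rfl; exact ⟨hs, rfl⟩
      rw [this]; simp [hs]
    · have : s.filter (fun i => i.head? = none) = ∅ := by
        ext w
        simp only [Finset.mem_filter, List.head?_eq_none_iff, Finset.notMem_empty, iff_false]
        rintro ⟨h1, rfl⟩; exact hs h1
      rw [this]; simp [hs]
  · apply Finset.prod_congr rfl
    intro a _
    have : s.filter (fun i => i.head? = some a) =
        (s.preimage (List.cons a) (List.cons_injective.injOn)).map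
          ⟨List.cons a, List.cons_injective⟩ := by
      ext w
      simp only [Finset.mem_filter, Finset.mem_map, Finset.mem_preimage,
        Function.Embedding.coeFn_mk]
      constructor
      · rintro ⟨h1, h2⟩
        obtain ⟨v, rfl⟩ : ∃ v, w = a :: v := by
          cases w with
          | nil => simp at h2
          | cons b v => simp at h2; exact ⟨v, by rw [h2]⟩
        exact ⟨v, h1, rfl⟩
      · rintro ⟨v, h1, rfl⟩
        exact ⟨h1, by simp⟩
    rw [this, Finset.prod_map]
    rfl

/-- The law of an i.i.d. labelled tree. -/
noncomputable def treeLaw (A : Type*) [MeasurableSpace S] (κ : Measure S)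
    [IsProbabilityMeasure κ] : Measure (List A → S) :=
  Measure.infinitePi (fun _ : List A => κ)

instance [MeasurableSpace S] (κ : Measure S) [IsProbabilityMeasure κ] :
    IsProbabilityMeasure (treeLaw A κ) := by
  unfold treeLaw; infer_instance

/-- Self-similarity of the law of an i.i.d. labelled tree. -/
theorem map_glue [Fintype A] [MeasurableSpace S] (κ : Measure S) [IsProbabilityMeasure κ] :
    (κ.prod (Measure.pi fun _ : A => treeLaw A κ)).map glue = treeLaw A κ := by
  classical
  unfold treeLaw
  apply Measure.eq_infinitePi
  intro s t ht
  rw [Measure.map_apply measurable_glue (MeasurableSet.pi s.countable_toSet fun i _ => ht i)]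
  have hpre : glue ⁻¹' (Set.pi (s : Set (List A)) t) =
      (if [] ∈ s then t [] else univ) ×ˢ
        (Set.pi univ fun a : A =>
          Set.pi (s.preimage (List.cons a) (List.cons_injective.injOn) : Set (List A))
            (fun w => t (a :: w))) := by
    ext z
    simp only [mem_preimage, Set.mem_pi, Finset.mem_coe, mem_prod, mem_univ, true_implies,
      Finset.mem_preimage]
    constructor
    · intro h
      refine ⟨?_, fun a w hw => h _ hw⟩
      split_ifs with hs
      · exact h [] hs
      · trivial
    · rintro ⟨h1, h2⟩ w hw
      cases w with
      | nil => rw [if_pos hw] at h1; exact h1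
      | cons a w => exact h2 a w hw
  rw [hpre, Measure.prod_prod, Measure.pi_pi, prod_split s (fun i => κ (t i))]
  congr 1
  · split_ifs
    · rfl
    · simp
  · apply Finset.prod_congr rfl
    intro a _
    rw [Measure.infinitePi_pi]
    intro w _
    exact ht _

/-- Integration over an i.i.d. labelled tree by splitting off the root. -/
theorem lintegral_tree [Fintype A] [MeasurableSpace S] (κ : Measure S)
    [IsProbabilityMeasure κ] {f : (List A → S) → ℝ≥0∞} (hf : Measurable f) :
    ∫⁻ x, f x ∂treeLaw A κ =
      ∫⁻ s, ∫⁻ y, f (glue (s, y)) ∂(Measure.pi fun _ : A => treeLaw A κ) ∂κ := by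
  conv_lhs => rw [← map_glue κ]
  rw [lintegral_map hf measurable_glue, lintegral_prod]
  exact (hf.comp measurable_glue).aemeasurable

/-- The subtree hanging at the word `w`. -/
def sub (x : List A → S) (w : List A) : List A → S := fun v => x (w ++ v)

@[simp] theorem sub_nil (x : List A → S) : sub x [] = x := rfl

theorem sub_append (x : List A → S) (u v : List A) : sub x (u ++ v) = sub (sub x u) v := by
  funext w; simp [sub, List.append_assoc]

theorem sub_cons (x : List A → S) (a : A) (w : List A) : sub x (a :: w) = sub (sub x [a]) w := by
  funext v; simp [sub]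

@[simp] theorem sub_glue (z : S × (A → List A → S)) (a : A) : sub (glue z) [a] = z.2 a := rfl

theorem measurable_sub [MeasurableSpace S] (w : List A) :
    Measurable fun x : List A → S => sub x w := by
  rw [measurable_pi_iff]
  intro v
  exact measurable_pi_apply _

/-- Peeling off the root: a function of the root label and a function of one subtree are
independent. -/
theorem lintegral_peel [Fintype A] [MeasurableSpace S] (κ : Measure S)
    [IsProbabilityMeasure κ] {g : S → ℝ≥0∞} (hg : Measurable g) {h : (List A → S) → ℝ≥0∞}
    (hh : Measurable h) (a : A) :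
    ∫⁻ x, g (x []) * h (sub x [a]) ∂treeLaw A κ = (∫⁻ s, g s ∂κ) * ∫⁻ x, h x ∂treeLaw A κ := by
  have hm : Measurable fun x : List A → S => g (x []) * h (sub x [a]) :=
    (hg.comp (measurable_pi_apply _)).mul (hh.comp (measurable_sub _))
  rw [lintegral_tree κ hm]
  have : ∀ s : S, ∫⁻ y, g (glue (s, y) []) * h (sub (glue (s, y)) [a])
      ∂(Measure.pi fun _ : A => treeLaw A κ) = g s * ∫⁻ x, h x ∂treeLaw A κ := by
    intro s
    simp only [glue_nil, sub_glue]
    rw [lintegral_const_mul]
    · congr 1
      exact (measurePreserving_eval (fun _ : A => treeLaw A κ) a).lintegral_comp hh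
    · exact hh.comp (measurable_pi_apply a)
  simp only [this]
  rw [lintegral_mul_const]
  exact hg

end Pool.Agent.H36.Perc
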