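import Pool.Agent.H36.Perc.Moments

open MeasureTheory ProbabilityTheory Set Filter
open scoped ENNReal NNReal Topology

namespace Pool.Agent.H36.Perc

variable {A : Type*} [Fintype A]

/-- Some word of length `k` is kept. -/
def alive (k : ℕ) (x : List A → A → Bool) : Prop := ∃ w ∈ words A k, kept x w

/-- There are kept words of every length. -/
def surv (x : List A → A → Bool) : Prop := ∀ k, alive k x

theorem measurableSet_alive (k : ℕ) : MeasurableSet {x : List A → A → Bool | alive k x} := by
  have : {x : List A → A → Bool | alive k x} = ⋃ w ∈ words A k, {x | kept x w} := by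
    ext x; simp [alive]
  rw [this]
  exact Finset.measurableSet_biUnion _ fun w _ => measurableSet_kept w

theorem measurableSet_surv : MeasurableSet {x : List A → A → Bool | surv x} := by
  have : {x : List A → A → Bool | surv x} = ⋂ k, {x | alive k x} := by
    ext x; simp [surv]
  rw [this]
  exact MeasurableSet.iInter measurableSet_alive

omit [Fintype A] in
theorem kept_append (x : List A → A → Bool) (u v : List A) :
    kept x (u ++ v) ↔ kept x u ∧ kept (sub x u) v := pathEv_append _ _ _ _

theorem alive_anti {k l : ℕ} (hkl : k ≤ l) {x : List A → A → Bool} (h : alive l x) :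
    alive k x := by
  obtain ⟨w, hw, hk⟩ := h
  rw [mem_words] at hw
  refine ⟨w.take k, mem_words.2 (by simp [hw, hkl]), ?_⟩
  rw [← List.take_append_drop k w, kept_append] at hk
  exact hk.1

theorem alive_succ (k : ℕ) (x : List A → A → Bool) :
    alive (k + 1) x ↔ ∃ a, x [] a = true ∧ alive k (sub x [a]) := by
  constructor
  · rintro ⟨w, hw, hk⟩
    rw [mem_words] at hw
    cases w with
    | nil => simp at hw
    | cons a w => exact ⟨a, hk.1, w, mem_words.2 (by simpa using hw), hk.2⟩
  · rintro ⟨a, ha, w, hw, hk⟩
    exact ⟨a :: w, mem_words.2 (by simp [mem_words.1 hw]), ha, hk⟩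

theorem surv_iff (x : List A → A → Bool) :
    surv x ↔ ∃ a, x [] a = true ∧ surv (sub x [a]) := by
  constructor
  · intro h
    by_contra hcon
    push Not at hcon
    have h2 : ∀ a : A, ∃ k, x [] a = true → ¬ alive k (sub x [a]) := by
      intro a
      by_cases ha : x [] a = true
      · have := hcon a ha
        unfold surv at this
        push Not at this
        obtain ⟨k, hk⟩ := this
        exact ⟨k, fun _ => hk⟩
      · exact ⟨0, fun h => absurd h ha⟩
    choose K hK using h2
    obtain ⟨a, ha, hal⟩ := (alive_succ (Finset.univ.sup K) x).1 (h _)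
    exact hK a ha (alive_anti (Finset.le_sup (Finset.mem_univ a)) hal)
  · rintro ⟨a, ha, hs⟩ k
    cases k with
    | zero => exact ⟨[], mem_words.2 rfl, trivial⟩
    | succ k => exact (alive_succ k x).2 ⟨a, ha, hs k⟩

/-- The number of words of length `k` which are kept and survive. -/
noncomputable def Z' (k : ℕ) (x : List A → A → Bool) : ℝ≥0∞ :=
  ∑ w ∈ words A k, indicator {x | kept x w ∧ surv (sub x w)} 1 x

theorem measurableSet_ks (w : List A) :
    MeasurableSet {x : List A → A → Bool | kept x w ∧ surv (sub x w)} :=
  (measurableSet_kept w).inter (measurable_sub w measurableSet_surv)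

theorem measurable_Z' (k : ℕ) : Measurable (Z' (A := A) k) := by
  unfold Z'
  apply Finset.measurable_sum
  intro w _
  exact measurable_one.indicator (measurableSet_ks w)

theorem Z'_le (k : ℕ) (x : List A → A → Bool) : Z' k x ≤ Z k x := by
  unfold Z' Z
  apply Finset.sum_le_sum
  intro w _
  apply indicator_le_indicator_of_subset
  · intro x hx; exact hx.1
  · intro _; exact zero_le_one

theorem Z'_succ_ge (k : ℕ) (x : List A → A → Bool) {a : A} (ha : x [] a = true) :
    Z' k (sub x [a]) ≤ Z' (k + 1) x := by
  unfold Z'
  rw [sum_words_succ]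
  refine le_trans (le_of_eq ?_) (Finset.single_le_sum (f := fun b : A =>
    ∑ w ∈ words A k, indicator {x | kept x (b :: w) ∧ surv (sub x (b :: w))} 1 x)
    (fun _ _ => zero_le) (Finset.mem_univ a))
  apply Finset.sum_congr rfl
  intro w _
  have : (kept (sub x [a]) w ∧ surv (sub (sub x [a]) w)) ↔
      (kept x (a :: w) ∧ surv (sub x (a :: w))) := by
    rw [sub_cons x a w]
    constructor
    · rintro ⟨h1, h2⟩; exact ⟨⟨ha, h1⟩, h2⟩
    · rintro ⟨h1, h2⟩; exact ⟨h1.2, h2⟩
  by_cases h : kept x (a :: w) ∧ surv (sub x (a :: w))
  · have h' := this.2 h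
    rw [indicator_of_mem (by exact h'), indicator_of_mem (by exact h)]
    rfl
  · have h' := fun h2 => h (this.1 h2)
    rw [indicator_of_notMem (by exact h'), indicator_of_notMem (by exact h)]

theorem lintegral_Z' (ν : Measure Bool) [IsProbabilityMeasure ν] (k : ℕ) :
    ∫⁻ x, Z' k x ∂perc A ν = (Fintype.card A * ν {true}) ^ k * perc A ν {x | surv x} := by
  unfold Z'
  rw [lintegral_finsetSum _ (fun w _ => measurable_one.indicator (measurableSet_ks w))]
  have : ∀ w ∈ words A k, ∫⁻ x, indicator {x | kept x w ∧ surv (sub x w)} 1 x ∂perc A ν =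
      ν {true} ^ k * perc A ν {x | surv x} := by
    intro w hw
    rw [lintegral_indicator_one (measurableSet_ks w)]
    have h := lintegral_kept (A := A) ν measurableSet_surv w
    rw [mem_words.1 hw] at h
    exact h
  rw [Finset.sum_congr rfl this, Finset.sum_const, card_words, nsmul_eq_mul, mul_pow]
  push_cast
  ring

/-- The probability that all kept children have a property `E`. -/
theorem measure_children (ν : Measure Bool) [IsProbabilityMeasure ν]
    {E : Set (List A → A → Bool)} (hE : MeasurableSet E) :
    perc A ν {x | ∀ a, x [] a = true → sub x [a] ∈ E} =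
      (ν {true} * perc A ν E + ν {false}) ^ Fintype.card A := by
  have hm : MeasurableSet {x : List A → A → Bool | ∀ a, x [] a = true → sub x [a] ∈ E} := by
    have : {x : List A → A → Bool | ∀ a, x [] a = true → sub x [a] ∈ E} =
        ⋂ a, ({x | x [] a = true}ᶜ ∪ {x | sub x [a] ∈ E}) := by
      ext x; simp [imp_iff_not_or]
    rw [this]
    apply MeasurableSet.iInter
    intro a
    have h1 : MeasurableSet {x : List A → A → Bool | x [] a = true} := by
      have := (measurable_pi_apply (X := fun _ : List A => (A → Bool)) []) (measurableSet_on a)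
      exact this
    exact h1.compl.union (measurable_sub _ hE)
  rw [← lintegral_indicator_one hm]
  unfold perc
  rw [lintegral_tree _ (measurable_one.indicator hm)]
  have hin : ∀ s : A → Bool,
      ∫⁻ y, indicator {x : List A → A → Bool | ∀ a, x [] a = true → sub x [a] ∈ E} 1 (glue (s, y))
        ∂(Measure.pi fun _ : A => treeLaw A (lab A ν)) =
      ∏ a : A, (if s a = true then treeLaw A (lab A ν) E else 1) := by
    intro s
    have hset : ∀ y : A → List A → A → Bool,
        indicator {x : List A → A → Bool | ∀ a, x [] a = true → sub x [a] ∈ E}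
          (1 : (List A → A → Bool) → ℝ≥0∞) (glue (s, y)) =
        indicator (Set.pi univ fun a : A => if s a = true then E else univ) 1 y := by
      intro y
      have : glue (s, y) ∈ {x : List A → A → Bool | ∀ a, x [] a = true → sub x [a] ∈ E} ↔
          y ∈ (Set.pi univ fun a : A => if s a = true then E else univ) := by
        simp only [mem_ofPred_eq, glue_nil, sub_glue, Set.mem_pi, mem_univ, true_implies]
        apply forall_congr'
        intro a
        by_cases h : s a = true <;> simp [h]
      by_cases h : y ∈ (Set.pi univ fun a : A => if s a = true then E else univ)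
      · rw [indicator_of_mem h, indicator_of_mem (this.2 h)]; rfl
      · rw [indicator_of_notMem h, indicator_of_notMem (fun h' => h (this.1 h'))]
    simp only [hset]
    rw [lintegral_indicator_one, Measure.pi_pi]
    · apply Finset.prod_congr rfl
      intro a _
      split_ifs
      · rfl
      · exact measure_univ
    · apply MeasurableSet.univ_pi
      intro a
      split_ifs
      · exact hE
      · exact MeasurableSet.univ
  simp only [hin]
  have hind : iIndepFun (fun (a : A) (s : A → Bool) =>
      (if s a = true then treeLaw A (lab A ν) E else 1 : ℝ≥0∞)) (lab A ν) := by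
    unfold lab
    exact iIndepFun_pi (μ := fun _ : A => ν)
      (X := fun _ b => (if b = true then treeLaw A (Measure.pi fun _ : A => ν) E else 1 : ℝ≥0∞))
      (fun _ => (measurable_of_finite _).aemeasurable)
  rw [lintegral_prod_eq_prod_lintegral_of_indepFun Finset.univ _ hind]
  · have : ∀ a : A, ∫⁻ s, (if s a = true then treeLaw A (lab A ν) E else 1 : ℝ≥0∞) ∂lab A ν =
        ν {true} * treeLaw A (lab A ν) E + ν {false} := by
      intro a
      have h1 := (measurePreserving_eval (fun _ : A => ν) a).lintegral_comp
        (f := fun b => (if b = true then treeLaw A (lab A ν) E else 1 : ℝ≥0∞))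
        (measurable_of_finite _)
      have h2 : ∫⁻ s, (if s a = true then treeLaw A (lab A ν) E else 1 : ℝ≥0∞) ∂lab A ν =
          ∫⁻ b, (if b = true then treeLaw A (lab A ν) E else 1 : ℝ≥0∞) ∂ν := h1
      rw [h2, lintegral_fintype]
      simp
      ring
    simp only [this, Finset.prod_const, Finset.card_univ]
  · intro a
    exact (measurable_of_finite (fun b : Bool =>
      (if b = true then treeLaw A (lab A ν) E else 1 : ℝ≥0∞))).comp (measurable_pi_apply a)

end Pool.Agent.H36.Perc
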