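import Pool.Agent.H36.Perc.Growth

open MeasureTheory ProbabilityTheory Set Filter
open scoped ENNReal NNReal Topology

namespace Pool.Agent.H36.Perc

variable {A : Type*} [Fintype A]

/-- Exactly the child `a` is kept. -/
def only (a : A) : Set (A → Bool) := {s | ∀ b, s b = true ↔ b = a}

omit [Fintype A] in
theorem only_eq_pi [DecidableEq A] (a : A) :
    only a = Set.pi univ (fun b => if b = a then {true} else {false}) := by
  ext s
  simp only [only, mem_ofPred_eq, Set.mem_pi, mem_univ, true_implies]
  apply forall_congr'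
  intro b
  by_cases h : b = a
  · simp [h]
  · simp [h]

theorem measurableSet_only (a : A) : MeasurableSet (only a) := by
  classical
  rw [only_eq_pi]
  apply MeasurableSet.univ_pi
  intro b
  split_ifs <;> exact measurableSet_singleton _

omit [Fintype A] in
theorem only_sub_on (a : A) : only a ⊆ on a := fun _ hs => (hs a).2 rfl

/-- The probability that exactly the child `a` is kept. -/
noncomputable def bet (A : Type*) [Fintype A] (ν : Measure Bool) : ℝ≥0∞ :=
  ν {true} * ν {false} ^ (Fintype.card A - 1)

theorem lab_only (ν : Measure Bool) [IsProbabilityMeasure ν] (a : A) :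
    lab A ν (only a) = bet A ν := by
  classical
  unfold lab bet
  rw [only_eq_pi, Measure.pi_pi, Fintype.prod_eq_mul_prod_compl a]
  congr 1
  · simp
  · rw [Finset.prod_congr rfl (g := fun _ => ν {false})]
    · rw [Finset.prod_const, Finset.card_compl, Finset.card_singleton]
    · intro b hb
      simp only [Finset.mem_compl, Finset.mem_singleton] at hb
      simp [hb]

/-- Along the path `w` every cube has exactly one kept child, the one on the path. -/
def exact (x : List A → A → Bool) (w : List A) : Prop := pathEv only x w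

omit [Fintype A] in
theorem exact_kept {x : List A → A → Bool} {w : List A} (h : exact x w) : kept x w :=
  pathEv_mono only_sub_on h

theorem measurableSet_exact (w : List A) : MeasurableSet {x : List A → A → Bool | exact x w} :=
  measurableSet_pathEv measurableSet_only w

open Classical in
/-- The weight of the coarse letter `b` at the root. -/
noncomputable def wt (c : List A) (t : ℝ≥0∞) (b : List A) (x : List A → A → Bool) : ℝ≥0∞ :=
  if kept x b then (if b = c ∧ exact x c then t else 1) else 0

theorem measurable_wt (c : List A) (t : ℝ≥0∞) (b : List A) : Measurable (wt c t b) := by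
  classical
  unfold wt
  refine Measurable.ite (measurableSet_kept b) (Measurable.ite ?_ measurable_const
    measurable_const) measurable_const
  by_cases hb : b = c
  · simp only [hb, true_and]; exact measurableSet_exact c
  · simp [hb]

theorem lintegral_wt (ν : Measure Bool) [IsProbabilityMeasure ν] {c : List A} {t : ℝ≥0∞}
    (ht : t ≤ 1) {h : (List A → A → Bool) → ℝ≥0∞} (hh : Measurable h) (b : List A)
    [DecidableEq (List A)] :
    ∫⁻ x, wt c t b x * h (sub x b) ∂perc A ν +
      (if b = c then (1 - t) * bet A ν ^ c.length * ∫⁻ x, h x ∂perc A ν else 0) =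
      ν {true} ^ b.length * ∫⁻ x, h x ∂perc A ν := by
  have hk := lintegral_path (lab A ν) measurableSet_on (lab_on ν) hh b
  have he := lintegral_path (lab A ν) measurableSet_only (lab_only ν) hh c
  unfold perc
  rw [← hk]
  by_cases hb : b = c
  · subst hb
    rw [if_pos rfl, mul_assoc, ← he, ← lintegral_const_mul, ← lintegral_add_left]
    · congr 1
      funext x
      rw [← mul_assoc, ← add_mul]
      congr 1
      by_cases h1 : exact x b
      · have h2 := exact_kept h1
        have h1' : pathEv only x b := h1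
        have h2' : pathEv on x b := h2
        simp only [wt, h2, h1, if_true, and_self, indicator, mem_ofPred_eq, h1', h2',
          Pi.one_apply, mul_one]
        exact add_tsub_cancel_of_le ht
      · have h1' : ¬ pathEv only x b := h1
        by_cases h2 : kept x b
        · have h2' : pathEv on x b := h2
          simp [wt, h2, h1, indicator, h1', h2']
        · have h2' : ¬ pathEv on x b := h2
          simp [wt, h2, indicator, h1', h2']
    · exact (measurable_wt _ _ _).mul (hh.comp (measurable_sub _))
    · exact (measurable_one.indicator (measurableSet_exact b)).mul (hh.comp (measurable_sub _))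
  · rw [if_neg hb, add_zero]
    congr 1
    funext x
    congr 1
    by_cases h2 : kept x b
    · have h2' : pathEv on x b := h2
      simp [wt, h2, indicator, h2', hb]
    · have h2' : ¬ pathEv on x b := h2
      simp [wt, h2, indicator, h2']

/-- The weighted number of coarse words. -/
noncomputable def fsum (a0 : ℕ) (c : List A) (t : ℝ≥0∞) : ℕ → (List A → A → Bool) → ℝ≥0∞
  | 0, _ => 1
  | j + 1, x => ∑ b ∈ words A a0, wt c t b x * fsum a0 c t j (sub x b)

theorem measurable_fsum (a0 : ℕ) (c : List A) (t : ℝ≥0∞) (j : ℕ) :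
    Measurable (fsum a0 c t j) := by
  induction j with
  | zero => exact measurable_const
  | succ j ih =>
    have : fsum a0 c t (j + 1) = fun x => ∑ b ∈ words A a0, wt c t b x * fsum a0 c t j (sub x b) := rfl
    rw [this]
    apply Finset.measurable_sum
    intro b _
    exact (measurable_wt _ _ _).mul (ih.comp (measurable_sub _))

theorem lintegral_fsum_succ (ν : Measure Bool) [IsProbabilityMeasure ν] {a0 : ℕ} {c : List A}
    (hc : c.length = a0) {t : ℝ≥0∞} (ht : t ≤ 1) (j : ℕ) :
    ∫⁻ x, fsum a0 c t (j + 1) x ∂perc A ν +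
      (1 - t) * bet A ν ^ a0 * ∫⁻ x, fsum a0 c t j x ∂perc A ν =
      (Fintype.card A * ν {true}) ^ a0 * ∫⁻ x, fsum a0 c t j x ∂perc A ν := by
  classical
  have h1 : ∫⁻ x, fsum a0 c t (j + 1) x ∂perc A ν =
      ∑ b ∈ words A a0, ∫⁻ x, wt c t b x * fsum a0 c t j (sub x b) ∂perc A ν := by
    rw [← lintegral_finsetSum]
    · rfl
    · intro b _
      exact (measurable_wt _ _ _).mul ((measurable_fsum _ _ _ _).comp (measurable_sub _))
  have h2 : (1 - t) * bet A ν ^ a0 * ∫⁻ x, fsum a0 c t j x ∂perc A ν =
      ∑ b ∈ words A a0, (if b = c then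
        (1 - t) * bet A ν ^ c.length * ∫⁻ x, fsum a0 c t j x ∂perc A ν else 0) := by
    rw [Finset.sum_ite_eq', if_pos (mem_words.2 hc), hc]
  rw [h1, h2, ← Finset.sum_add_distrib]
  have h3 : ∀ b ∈ words A a0, ∫⁻ x, wt c t b x * fsum a0 c t j (sub x b) ∂perc A ν +
      (if b = c then (1 - t) * bet A ν ^ c.length * ∫⁻ x, fsum a0 c t j x ∂perc A ν else 0) =
      ν {true} ^ a0 * ∫⁻ x, fsum a0 c t j x ∂perc A ν := by
    intro b hb
    rw [lintegral_wt ν ht (measurable_fsum _ _ _ _) b, mem_words.1 hb]
  rw [Finset.sum_congr rfl h3, Finset.sum_const, card_words, nsmul_eq_mul, mul_pow]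
  push_cast
  ring

theorem lintegral_fsum (ν : Measure Bool) [IsProbabilityMeasure ν] {a0 : ℕ} {c : List A}
    (hc : c.length = a0) {t : ℝ≥0∞} (ht : t ≤ 1) (j : ℕ) :
    ∫⁻ x, fsum a0 c t j x ∂perc A ν =
      ((Fintype.card A * ν {true}) ^ a0 - (1 - t) * bet A ν ^ a0) ^ j := by
  have hm : (Fintype.card A * ν {true}) ^ a0 ≠ ∞ :=
    ENNReal.pow_ne_top (ENNReal.mul_ne_top (ENNReal.natCast_ne_top _) (measure_ne_top _ _))
  have hbfin : (1 - t) * bet A ν ^ a0 ≠ ∞ := by
    apply ENNReal.mul_ne_top
    · exact (tsub_le_self.trans_lt ENNReal.one_lt_top).ne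
    · apply ENNReal.pow_ne_top
      unfold bet
      exact ENNReal.mul_ne_top (measure_ne_top _ _) (ENNReal.pow_ne_top (measure_ne_top _ _))
  induction j with
  | zero => simp [fsum]
  | succ j ih =>
    have h := lintegral_fsum_succ ν hc ht j
    have hfin : ∫⁻ x, fsum a0 c t j x ∂perc A ν ≠ ∞ := by
      rw [ih]
      apply ENNReal.pow_ne_top
      exact (tsub_le_self.trans_lt hm.lt_top).ne
    have h4 : ∫⁻ x, fsum a0 c t (j + 1) x ∂perc A ν =
        (Fintype.card A * ν {true}) ^ a0 * ∫⁻ x, fsum a0 c t j x ∂perc A ν -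
        (1 - t) * bet A ν ^ a0 * ∫⁻ x, fsum a0 c t j x ∂perc A ν :=
      ENNReal.eq_sub_of_add_eq (ENNReal.mul_ne_top hbfin hfin) h
    rw [h4, ← ENNReal.sub_mul (fun _ _ => hfin), ih, pow_succ]
    ring

/-- The weighted sums over all coarse levels converge almost surely. -/
theorem upper_sum (ν : Measure Bool) [IsProbabilityMeasure ν] {a0 : ℕ} {c : List A}
    (hc : c.length = a0) {t L : ℝ≥0∞} (ht : t ≤ 1)
    (hlt : L * ((Fintype.card A * ν {true}) ^ a0 - (1 - t) * bet A ν ^ a0) < 1) :
    ∀ᵐ x ∂perc A ν, ∑' j, L ^ j * fsum a0 c t j x < ∞ := by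
  apply ae_lt_top
  · apply Measurable.tsum
    intro j
    exact (measurable_fsum _ _ _ _).const_mul _
  · rw [lintegral_tsum (fun j => ((measurable_fsum _ _ _ _).const_mul _).aemeasurable)]
    have : ∀ j, ∫⁻ x, L ^ j * fsum a0 c t j x ∂perc A ν =
        (L * ((Fintype.card A * ν {true}) ^ a0 - (1 - t) * bet A ν ^ a0)) ^ j := by
      intro j
      rw [lintegral_const_mul _ (measurable_fsum _ _ _ _), lintegral_fsum ν hc ht, ← mul_pow]
    simp only [this]
    rw [ENNReal.tsum_geometric]
    apply ENNReal.inv_ne_top.2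
    exact (tsub_pos_of_lt hlt).ne'

end Pool.Agent.H36.Perc
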